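import Mathlib
import Pool.Agent.R689.CondFlat

/-!
The localization `G ↦ ℚ ⊗ G_ab` of the category of groups is right exact, hence conditionally
flat, and it is not an epireflection.
-/

set_option autoImplicit false

universe u

namespace Run7.h958.CondFlat

open CategoryTheory TensorProduct Pool.Agent.R689.CF

/-- The additive abelianization. -/
abbrev Ab (G : Type u) [Group G] : Type u := Additive (Abelianization G)

/-- `ℚ ⊗ G_ab`. -/
abbrev QA (G : Type u) [Group G] : Type u := ℚ ⊗[ℤ] Ab G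

/-- The map on additive abelianizations, as an `ℤ`-linear map. -/
def abMap {G H : Type u} [Group G] [Group H] (f : G →* H) : Ab G →ₗ[ℤ] Ab H :=
  (MonoidHom.toAdditive (Abelianization.map f)).toIntLinearMap

/-- the class of an element -/
def cls {G : Type u} [Group G] (g : G) : Ab G := Additive.ofMul (Abelianization.of g)

lemma abMap_cls {G H : Type u} [Group G] [Group H] (f : G →* H) (g : G) :
    abMap f (cls g) = cls (f g) := rfl

lemma cls_surj {G : Type u} [Group G] (b : Ab G) : ∃ g, cls g = b := by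
  induction b using Additive.rec with
  | _ b =>
    obtain ⟨g, rfl⟩ := QuotientGroup.mk_surjective b
    exact ⟨g, rfl⟩

lemma cls_mul {G : Type u} [Group G] (g h : G) : cls (g * h) = cls g + cls h := rfl

lemma cls_one {G : Type u} [Group G] : cls (1 : G) = 0 := rfl

lemma abMap_id (G : Type u) [Group G] : abMap (MonoidHom.id G) = LinearMap.id := by
  ext b
  obtain ⟨g, rfl⟩ := cls_surj b
  rfl

lemma abMap_comp {G H K : Type u} [Group G] [Group H] [Group K] (f : G →* H) (g : H →* K) :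
    abMap (g.comp f) = (abMap g).comp (abMap f) := by
  ext b
  obtain ⟨g, rfl⟩ := cls_surj b
  rfl

/-- The functor `G ↦ ℚ ⊗ G_ab`. -/
def L : GrpCat.{u} ⥤ GrpCat.{u} where
  obj G := GrpCat.of (Multiplicative (QA G))
  map f := GrpCat.ofHom (AddMonoidHom.toMultiplicative
    (LinearMap.lTensor ℚ (abMap f.hom)).toAddMonoidHom)
  map_id G := by
    apply GrpCat.hom_ext
    refine MonoidHom.ext fun x => ?_
    change Multiplicative.ofAdd (LinearMap.lTensor ℚ (abMap (MonoidHom.id G)) x.toAdd) = x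
    rw [abMap_id, LinearMap.lTensor_id]
    rfl
  map_comp f g := by
    apply GrpCat.hom_ext
    refine MonoidHom.ext fun x => ?_
    change Multiplicative.ofAdd (LinearMap.lTensor ℚ (abMap (g.hom.comp f.hom)) x.toAdd) =
      Multiplicative.ofAdd (LinearMap.lTensor ℚ (abMap g.hom)
        (LinearMap.lTensor ℚ (abMap f.hom) x.toAdd))
    rw [abMap_comp, LinearMap.lTensor_comp]
    rfl

/-- The unit `G → ℚ ⊗ G_ab`. -/
def etaHom (G : Type u) [Group G] : G →* Multiplicative (QA G) where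
  toFun g := Multiplicative.ofAdd ((1 : ℚ) ⊗ₜ[ℤ] cls g)
  map_one' := by rw [cls_one, TensorProduct.tmul_zero]; rfl
  map_mul' g h := by rw [cls_mul, TensorProduct.tmul_add]; rfl

/-- The natural transformation `Id → L`. -/
def eta : 𝟭 GrpCat.{u} ⟶ L where
  app G := GrpCat.ofHom (etaHom G)
  naturality G H f := by
    apply GrpCat.hom_ext
    ext x
    change Multiplicative.ofAdd ((1 : ℚ) ⊗ₜ[ℤ] cls (f.hom x)) =
      Multiplicative.ofAdd (LinearMap.lTensor ℚ (abMap f.hom) ((1 : ℚ) ⊗ₜ[ℤ] cls x))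
    rw [LinearMap.lTensor_tmul, abMap_cls]

/-- `q ⊗ θ a = 1 ⊗ θ (q a)` for an additive map `θ` on a rational vector space. -/
lemma tmul_eq {A : Type u} [AddCommGroup A] [Module ℚ A] {B : Type u} [AddCommGroup B]
    (θ : A →+ B) (q : ℚ) (a : A) : (q ⊗ₜ[ℤ] θ a : ℚ ⊗[ℤ] B) = (1 : ℚ) ⊗ₜ[ℤ] θ (q • a) := by
  have hd : (q.den : ℚ) ≠ 0 := by exact_mod_cast q.den_nz
  have h1 : (q.den : ℚ) • (q ⊗ₜ[ℤ] θ a : ℚ ⊗[ℤ] B) =
      (q.den : ℚ) • ((1 : ℚ) ⊗ₜ[ℤ] θ (q • a) : ℚ ⊗[ℤ] B) := by
    rw [TensorProduct.smul_tmul', TensorProduct.smul_tmul', smul_eq_mul, smul_eq_mul, mul_one,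
      Rat.den_mul_eq_num]
    have e1 : ((q.num : ℤ) : ℚ) = (q.num : ℤ) • (1 : ℚ) := by simp
    have e2 : ((q.den : ℕ) : ℚ) = ((q.den : ℕ) : ℤ) • (1 : ℚ) := by simp
    rw [e1, e2, TensorProduct.smul_tmul, TensorProduct.smul_tmul, ← map_zsmul, ← map_zsmul]
    congr 2
    rw [← Int.cast_smul_eq_zsmul ℚ, ← Int.cast_smul_eq_zsmul ℚ, smul_smul]
    congr 1
    rw [Int.cast_natCast, Rat.den_mul_eq_num]
  have h2 := congrArg (fun z => (q.den : ℚ)⁻¹ • z) h1
  simpa [smul_smul, inv_mul_cancel₀ hd] using h2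

/-- the additive map `A → ((A)_ab)` -/
def clsHom (A : Type u) [AddCommGroup A] : A →+ Ab (Multiplicative A) where
  toFun a := cls (Multiplicative.ofAdd a)
  map_zero' := rfl
  map_add' _ _ := rfl

lemma clsHom_surj (A : Type u) [AddCommGroup A] : Function.Surjective (clsHom A) := by
  intro b
  obtain ⟨g, hg⟩ := cls_surj b
  exact ⟨g.toAdd, hg⟩

/-- the inverse of `clsHom` -/
def unclsHom (A : Type u) [AddCommGroup A] : Ab (Multiplicative A) →ₗ[ℤ] A :=
  (MonoidHom.toAdditiveLeft (Abelianization.lift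
    (MonoidHom.id (Multiplicative A)))).toIntLinearMap

lemma uncls_cls (A : Type u) [AddCommGroup A] (a : A) : unclsHom A (clsHom A a) = a := rfl

/-- `q ⊗ [a] ↦ q a` -/
noncomputable def rho (A : Type u) [AddCommGroup A] [Module ℚ A] :
    ℚ ⊗[ℤ] Ab (Multiplicative A) →ₗ[ℤ] A :=
  TensorProduct.lift
    { toFun := fun q =>
        { toFun := fun b => q • unclsHom A b
          map_add' := fun b c => by rw [map_add, smul_add]
          map_smul' := fun m b => by
            rw [map_smul, smul_comm]; rfl }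
      map_add' := fun q r => by
        ext b
        exact add_smul q r _
      map_smul' := fun m q => by
        ext b
        change (m • q) • unclsHom A b = m • (q • unclsHom A b)
        rw [smul_assoc] }

lemma rho_tmul (A : Type u) [AddCommGroup A] [Module ℚ A] (q : ℚ) (a : A) :
    rho A (q ⊗ₜ[ℤ] clsHom A a) = q • a := rfl

lemma isLoc : IsLocalizationFunctor L.{u} eta.{u} := by
  intro G
  constructor
  · apply GrpCat.hom_ext
    ext x
    change Multiplicative.ofAdd (LinearMap.lTensor ℚ (abMap (etaHom G)) x.toAdd) =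
      Multiplicative.ofAdd ((1 : ℚ) ⊗ₜ[ℤ] cls x)
    congr 1
    have key : ∀ y : QA G, LinearMap.lTensor ℚ (abMap (etaHom G)) y =
        (1 : ℚ) ⊗ₜ[ℤ] clsHom (QA G) y := by
      intro y
      induction y using TensorProduct.induction_on with
      | zero => rw [map_zero, map_zero, TensorProduct.tmul_zero]
      | tmul q b =>
        obtain ⟨g, rfl⟩ := cls_surj b
        rw [LinearMap.lTensor_tmul, abMap_cls]
        have h := tmul_eq (clsHom (QA G)) q ((1 : ℚ) ⊗ₜ[ℤ] cls g)
        rw [TensorProduct.smul_tmul', smul_eq_mul, mul_one] at h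
        exact h
      | add y z hy hz => rw [map_add, map_add, TensorProduct.tmul_add, hy, hz]
    exact key x.toAdd
  · have hb : Function.Bijective (etaHom (Multiplicative (QA G))) := by
      constructor
      · intro x y hxy
        have h : rho (QA G) ((1 : ℚ) ⊗ₜ[ℤ] clsHom (QA G) x.toAdd) =
            rho (QA G) ((1 : ℚ) ⊗ₜ[ℤ] clsHom (QA G) y.toAdd) :=
          congrArg (fun z : Multiplicative (QA (Multiplicative (QA G))) => rho (QA G) z.toAdd) hxy
        rw [rho_tmul, rho_tmul, one_smul, one_smul] at h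
        exact Multiplicative.toAdd.injective h
      · have key : ∀ z : QA (Multiplicative (QA G)), ∃ x : QA G,
            (1 : ℚ) ⊗ₜ[ℤ] clsHom (QA G) x = z := by
          intro z
          induction z using TensorProduct.induction_on with
          | zero => exact ⟨0, by rw [map_zero, TensorProduct.tmul_zero]⟩
          | tmul q b =>
            obtain ⟨a, rfl⟩ := clsHom_surj (QA G) b
            exact ⟨q • a, (tmul_eq (clsHom (QA G)) q a).symm⟩
          | add y z hy hz =>
            obtain ⟨a, ha⟩ := hy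
            obtain ⟨b, hb⟩ := hz
            exact ⟨a + b, by rw [map_add, TensorProduct.tmul_add, ha, hb]⟩
        intro z
        obtain ⟨x, hx⟩ := key z.toAdd
        exact ⟨Multiplicative.ofAdd x, congrArg Multiplicative.ofAdd hx⟩
    let e : (L.obj G) ≅ (L.obj (L.obj G)) := (MulEquiv.ofBijective _ hb).toGrpIso
    exact e.isIso_hom

/-- Right exactness of the abelianization. -/
lemma ab_exact {N E G : Type u} [Group N] [Group E] [Group G] (i : N →* E) (p : E →* G)
    (hp : Function.Surjective p) (h : i.range = p.ker) :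
    Function.Exact (abMap i) (abMap p) := by
  intro b
  constructor
  · intro hb
    obtain ⟨x, rfl⟩ := cls_surj b
    rw [abMap_cls] at hb
    have h1 : p x ∈ commutator G := by
      have : (Abelianization.of (p x) : Abelianization G) = 1 := hb
      exact (QuotientGroup.eq_one_iff _).1 this
    have h2 : (commutator E).map p = commutator G := by
      rw [commutator_def, commutator_def, Subgroup.map_commutator,
        Subgroup.map_top_of_surjective p hp]
    rw [← h2] at h1
    obtain ⟨c, hc, hcx⟩ := h1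
    have h3 : x * c⁻¹ ∈ p.ker := by
      rw [MonoidHom.mem_ker, map_mul, map_inv, hcx, mul_inv_cancel]
    rw [← h] at h3
    obtain ⟨n, hn⟩ := h3
    refine ⟨cls n, ?_⟩
    rw [abMap_cls, hn, cls_mul]
    have h4 : cls c⁻¹ = (0 : Ab E) := by
      have : (Abelianization.of c⁻¹ : Abelianization E) = 1 :=
        (QuotientGroup.eq_one_iff _).2 ((commutator E).inv_mem hc)
      exact this
    rw [h4, add_zero]
  · rintro ⟨a, rfl⟩
    obtain ⟨n, rfl⟩ := cls_surj a
    rw [abMap_cls, abMap_cls]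
    have : p (i n) = 1 := by
      have : i n ∈ p.ker := by rw [← h]; exact ⟨n, rfl⟩
      exact this
    rw [this, cls_one]

lemma ab_surj {E G : Type u} [Group E] [Group G] (p : E →* G)
    (hp : Function.Surjective p) : Function.Surjective (abMap p) := by
  intro b
  obtain ⟨x, rfl⟩ := cls_surj b
  obtain ⟨y, rfl⟩ := hp x
  exact ⟨cls y, abMap_cls _ _⟩

lemma L_exact {N E G : GrpCat.{u}} (i : N ⟶ E) (p : E ⟶ G) (h : ShortExact i p) :
    Function.Surjective (L.map p).hom ∧ (L.map i).hom.range = (L.map p).hom.ker := by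
  have hs := ab_surj p.hom h.2.1
  have he := lTensor_exact ℚ (ab_exact i.hom p.hom h.2.1 h.2.2) hs
  constructor
  · intro x
    obtain ⟨y, hy⟩ := LinearMap.lTensor_surjective ℚ hs x.toAdd
    exact ⟨Multiplicative.ofAdd y, congrArg Multiplicative.ofAdd hy⟩
  · ext x
    constructor
    · rintro ⟨y, rfl⟩
      exact congrArg Multiplicative.ofAdd ((he (LinearMap.lTensor ℚ (abMap i.hom) y.toAdd)).2
        ⟨y.toAdd, rfl⟩)
    · intro hx
      obtain ⟨y, hy⟩ := (he x.toAdd).1 (congrArg Multiplicative.toAdd hx)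
      exact ⟨Multiplicative.ofAdd y, congrArg Multiplicative.ofAdd hy⟩

lemma condFlat : ConditionallyFlat L.{u} := by
  intro N E G i p h hf H f
  have hpb := pb_shortExact i p h f
  obtain ⟨h1, h2⟩ := L_exact _ _ hpb
  refine ⟨?_, h1, h2⟩
  have h3 : i = pbIncl i p h f ≫ pbFst p f := by
    apply GrpCat.hom_ext
    ext x
    rfl
  have h4 : Function.Injective (L.map i).hom := hf.1
  rw [h3, L.map_comp] at h4
  intro x y hxy
  apply h4
  change (L.map (pbFst p f)).hom ((L.map (pbIncl i p h f)).hom x) =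
    (L.map (pbFst p f)).hom ((L.map (pbIncl i p h f)).hom y)
  rw [hxy]

lemma not_epi : ¬ IsEpireflection L.{u} eta.{u} := by
  intro h
  let G : Type u := ULift.{u} (Multiplicative ℤ)
  have hs : Function.Surjective (etaHom G) := h (GrpCat.of G)
  let φ0 : G →* Multiplicative ℤ := MulEquiv.ulift.toMonoidHom
  let φ : Ab G →ₗ[ℤ] ℤ := (MonoidHom.toAdditiveLeft (Abelianization.lift φ0)).toIntLinearMap
  have hφ : ∀ g : G, φ (cls g) = g.down.toAdd := fun g => rfl
  let ψ : ℚ ⊗[ℤ] Ab G →ₗ[ℤ] ℚ ⊗[ℤ] ℤ := LinearMap.lTensor ℚ φ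
  let g1 : G := ULift.up (Multiplicative.ofAdd 1)
  obtain ⟨g, hg⟩ := hs (Multiplicative.ofAdd ((1 / 2 : ℚ) ⊗ₜ[ℤ] cls g1))
  have hg' : ((1 : ℚ) ⊗ₜ[ℤ] cls g : ℚ ⊗[ℤ] Ab G) = (1 / 2 : ℚ) ⊗ₜ[ℤ] cls g1 := hg
  have h5 : ((1 : ℚ) ⊗ₜ[ℤ] φ (cls g) : ℚ ⊗[ℤ] ℤ) = (1 / 2 : ℚ) ⊗ₜ[ℤ] φ (cls g1) :=
    congrArg ψ hg'
  rw [hφ, hφ] at h5
  have h6 := congrArg (TensorProduct.rid ℤ ℚ) h5
  rw [TensorProduct.rid_tmul, TensorProduct.rid_tmul] at h6
  change (g.down.toAdd : ℤ) • (1 : ℚ) = (1 : ℤ) • (1 / 2 : ℚ) at h6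
  rw [one_smul, zsmul_eq_mul, mul_one] at h6
  have h7 : ((2 * g.down.toAdd : ℤ) : ℚ) = ((1 : ℤ) : ℚ) := by
    push_cast
    rw [h6]
    norm_num
  have h8 : 2 * (g.down.toAdd : ℤ) = 1 := by exact_mod_cast h7
  omega

end Run7.h958.CondFlat
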