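import Mathlib

set_option autoImplicit false

/-!
A monomial algebra on two letters whose nonzero words are the factors of the words
`(y x^n)^n`: it has polynomial growth, and nilpotent ideals of unbounded index.
-/

namespace Run7.h958.Nil

/-- letter `c` (`true` for `y`, `false` for `x`) stands at position `i` of `(y x^n)^n`. -/
def ok (c : Bool) (n i : ℕ) : Prop := i < n * (n + 1) ∧ (decide (i % (n + 1) = 0) = c)

instance (c : Bool) (n i : ℕ) : Decidable (ok c n i) := by unfold ok; infer_instance

/-- the word `w` occurs at position `i` of `(y x^n)^n`. -/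
def occ : List Bool → ℕ → ℕ → Prop
  | [], _, _ => True
  | c :: w, n, i => ok c n i ∧ occ w n (i + 1)

instance decOcc : (w : List Bool) → (n i : ℕ) → Decidable (occ w n i)
  | [], _, _ => by unfold occ; infer_instance
  | c :: w, n, i => by
      unfold occ
      haveI := decOcc w n (i + 1)
      infer_instance

/-- the module -/
abbrev M := ℕ → ℕ → ℚ

/-- the shift operator of the letter `c`. -/
def op (c : Bool) : Module.End ℚ M where
  toFun f := fun n i => if ok c n i then f n (i + 1) else 0
  map_add' f g := by
    funext n i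
    by_cases h : ok c n i <;> simp [h]
  map_smul' r f := by
    funext n i
    by_cases h : ok c n i <;> simp [h]

theorem op_apply (c : Bool) (f : M) (n i : ℕ) :
    op c f n i = if ok c n i then f n (i + 1) else 0 := rfl

/-- the algebra -/
abbrev A : Subalgebra ℚ (Module.End ℚ M) := Algebra.adjoin ℚ (Set.range op)

/-- the two generators -/
def g (c : Bool) : A := ⟨op c, Algebra.subset_adjoin ⟨c, rfl⟩⟩

/-- the element of a word -/
def W (w : List Bool) : A := (w.map g).prod

theorem W_nil : W [] = 1 := rfl

theorem W_cons (c : Bool) (w : List Bool) : W (c :: w) = g c * W w := by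
  simp [W]

theorem W_append (u v : List Bool) : W (u ++ v) = W u * W v := by
  simp [W]

theorem W_apply (w : List Bool) (f : M) (n i : ℕ) :
    (W w : Module.End ℚ M) f n i = if occ w n i then f n (i + w.length) else 0 := by
  induction w generalizing n i with
  | nil => simp [W_nil, occ]
  | cons c w ih =>
    rw [W_cons]
    have : ((g c * W w : A) : Module.End ℚ M) f = op c ((W w : Module.End ℚ M) f) := rfl
    rw [this, op_apply, ih]
    by_cases h : ok c n i
    · by_cases h2 : occ w n (i + 1)
      · simp only [h, h2, occ, if_true, and_self, List.length_cons]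
        congr 1
        omega
      · simp [h, h2, occ]
    · simp [h, occ]

theorem occ_append (u v : List Bool) (n i : ℕ) :
    occ (u ++ v) n i ↔ occ u n i ∧ occ v n (i + u.length) := by
  induction u generalizing i with
  | nil => simp [occ]
  | cons c u ih =>
    simp only [List.cons_append, occ, ih, List.length_cons]
    rw [show i + 1 + u.length = i + (u.length + 1) by omega]
    tauto

theorem occ_replicate (r : ℕ) (c : Bool) (n i : ℕ) :
    occ (List.replicate r c) n i ↔ ∀ j < r, ok c n (i + j) := by
  induction r generalizing i with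
  | zero => simp [occ]
  | succ r ih =>
    simp only [List.replicate_succ, occ, ih]
    constructor
    · rintro ⟨h0, h⟩ j hj
      rcases Nat.eq_zero_or_pos j with rfl | hj0
      · simpa using h0
      · have := h (j - 1) (by omega)
        rwa [show i + 1 + (j - 1) = i + j by omega] at this
    · intro h
      refine ⟨by simpa using h 0 (by omega), fun j hj => ?_⟩
      have := h (j + 1) (by omega)
      rwa [show i + 1 + j = i + (j + 1) by omega]

/-- the periodic word of length `l` starting at position `i`. -/
def word (n i l : ℕ) : List Bool := (List.range l).map fun j => decide ((i + j) % (n + 1) = 0)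

theorem word_succ (n i l : ℕ) :
    word n i (l + 1) = decide (i % (n + 1) = 0) :: word n (i + 1) l := by
  unfold word
  rw [List.range_succ_eq_map, List.map_cons, List.map_map]
  congr 1
  apply List.map_congr_left
  intro j _
  simp only [Function.comp]
  rw [show i + Nat.succ j = i + 1 + j by omega]

theorem occ_eq_word (w : List Bool) (n i : ℕ) (h : occ w n i) : w = word n i w.length := by
  induction w generalizing i with
  | nil => simp [word]
  | cons c w ih =>
    obtain ⟨h1, h2⟩ := h
    rw [List.length_cons, word_succ, ← ih (i + 1) h2, h1.2]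

theorem word_mod (n i l : ℕ) : word n i l = word n (i % (n + 1)) l := by
  unfold word
  apply List.map_congr_left
  intro j _
  simp

/-- every occurring word of length at most `m` is a periodic word with parameters at most `m`. -/
theorem exists_word (w : List Bool) (n i m : ℕ) (h : occ w n i) (hw : w.length ≤ m) :
    ∃ a ≤ m, ∃ b ≤ m, w = word a b w.length := by
  have h1 := occ_eq_word w n i h
  by_cases hn : n ≤ m
  · refine ⟨n, hn, i % (n + 1), ?_, ?_⟩
    · have := Nat.mod_lt i (Nat.succ_pos n)
      simp only [Nat.succ_eq_add_one] at this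
      omega
    · rw [← word_mod]; exact h1
  · push Not at hn
    -- at most one `y`
    by_cases hy : ∃ j < w.length, (i + j) % (n + 1) = 0
    · obtain ⟨j0, hj0, hj⟩ := hy
      refine ⟨m, le_rfl, (m + 1 - j0) % (m + 1), ?_, ?_⟩
      · have := Nat.mod_lt (m + 1 - j0) (Nat.succ_pos m)
        simp only [Nat.succ_eq_add_one] at this
        omega
      · rw [← word_mod]
        conv_lhs => rw [h1]
        unfold word
        apply List.map_congr_left
        intro j hjm
        rw [List.mem_range] at hjm
        have e1 : (i + j) % (n + 1) = 0 ↔ j = j0 := by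
          constructor
          · intro hh
            by_contra hne
            rcases Nat.lt_or_gt_of_ne hne with hlt | hlt
            · have : (n + 1) ∣ (i + j0) - (i + j) :=
                Nat.dvd_sub (Nat.dvd_of_mod_eq_zero hj) (Nat.dvd_of_mod_eq_zero hh)
              have := Nat.le_of_dvd (by omega) this
              omega
            · have : (n + 1) ∣ (i + j) - (i + j0) :=
                Nat.dvd_sub (Nat.dvd_of_mod_eq_zero hh) (Nat.dvd_of_mod_eq_zero hj)
              have := Nat.le_of_dvd (by omega) this
              omega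
          · rintro rfl; exact hj
        have e2 : (m + 1 - j0 + j) % (m + 1) = 0 ↔ j = j0 := by
          constructor
          · intro hh
            obtain ⟨q, hq⟩ := Nat.dvd_of_mod_eq_zero hh
            have : q = 1 := by
              rcases q with _ | _ | q
              · omega
              · rfl
              · exfalso
                have : (m + 1) * (q + 1 + 1) ≥ 2 * (m + 1) := by nlinarith
                omega
            subst this
            omega
          · rintro rfl
            have : m + 1 - j + j = m + 1 := by omega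
            rw [this, Nat.mod_self]
        by_cases hjj : j = j0
        · simp [e1.2 hjj, e2.2 hjj]
        · have a1 : ¬ (i + j) % (n + 1) = 0 := fun hh => hjj (e1.1 hh)
          have a2 : ¬ (m + 1 - j0 + j) % (m + 1) = 0 := fun hh => hjj (e2.1 hh)
          simp [a1, a2]
    · push Not at hy
      refine ⟨m, le_rfl, 1 % (m + 1), ?_, ?_⟩
      · have := Nat.mod_lt 1 (Nat.succ_pos m)
        simp only [Nat.succ_eq_add_one] at this
        omega
      · rw [← word_mod]
        conv_lhs => rw [h1]
        unfold word
        apply List.map_congr_left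
        intro j hjm
        rw [List.mem_range] at hjm
        have a1 := hy j hjm
        have a2 : ¬ (1 + j) % (m + 1) = 0 := by
          intro hh
          have := Nat.le_of_dvd (by omega) (Nat.dvd_of_mod_eq_zero hh)
          omega
        simp [a1, a2]

section generic

variable {B : Type} [Ring B] [Algebra ℚ B] (gg : Bool → B)

/-- the generating space -/
def V : Submodule ℚ B := Submodule.span ℚ (insert 1 (Set.range gg))

theorem V_pow_le (m : ℕ) :
    V gg ^ m ≤ Submodule.span ℚ ((fun w : List Bool => (w.map gg).prod) '' {w | w.length ≤ m}) := by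
  induction m with
  | zero =>
    rw [pow_zero, Submodule.one_eq_span]
    apply Submodule.span_mono
    rintro _ rfl
    exact ⟨[], by simp, by simp⟩
  | succ m ih =>
    rw [pow_succ]
    calc V gg ^ m * V gg ≤
          Submodule.span ℚ ((fun w : List Bool => (w.map gg).prod) '' {w | w.length ≤ m}) * V gg :=
          mul_le_mul_left ih _
      _ ≤ _ := by
        unfold V
        rw [Submodule.span_mul_span]
        apply Submodule.span_mono
        rintro _ ⟨_, ⟨w, hw, rfl⟩, b, hb, rfl⟩
        simp only [Set.mem_ofPred_eq] at hw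
        rcases hb with rfl | ⟨c, rfl⟩
        · exact ⟨w, by simp only [Set.mem_ofPred_eq]; omega, by simp⟩
        · refine ⟨w ++ [c], by simp only [Set.mem_ofPred_eq, List.length_append,
            List.length_singleton]; omega, ?_⟩
          simp

/-- the finite family of words of length at most `m` -/
def fam (m : ℕ) : (Fin (m + 1) × Fin (m + 1)) × Fin (m + 1) → B :=
  fun t => ((word t.1.1 t.1.2 t.2).map gg).prod

theorem span_le (h0 : ∀ w : List Bool, (∀ n i, ¬ occ w n i) → (w.map gg).prod = 0) (m : ℕ) :
    Submodule.span ℚ ((fun w : List Bool => (w.map gg).prod) '' {w | w.length ≤ m}) ≤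
      Submodule.span ℚ (Set.range (fam gg m)) := by
  rw [Submodule.span_le]
  rintro _ ⟨w, hw, rfl⟩
  simp only [Set.mem_ofPred_eq] at hw
  simp only [SetLike.mem_coe]
  by_cases h : ∃ n i, occ w n i
  · obtain ⟨n, i, h⟩ := h
    obtain ⟨a, ha, b, hb, e⟩ := exists_word w n i m h hw
    apply Submodule.subset_span
    refine ⟨((⟨a, by omega⟩, ⟨b, by omega⟩), ⟨w.length, by omega⟩), ?_⟩
    simp only [fam]
    rw [← e]
  · push Not at h
    rw [h0 w h]
    exact Submodule.zero_mem _

theorem finrank_V_pow (h0 : ∀ w : List Bool, (∀ n i, ¬ occ w n i) → (w.map gg).prod = 0) (m : ℕ) :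
    Module.finrank ℚ ↥(V gg ^ m) ≤ 1 * (m + 1) ^ 3 := by
  have h1 : V gg ^ m ≤ Submodule.span ℚ (Set.range (fam gg m)) :=
    (V_pow_le gg m).trans (span_le gg h0 m)
  have : FiniteDimensional ℚ (Submodule.span ℚ (Set.range (fam gg m))) :=
    FiniteDimensional.span_of_finite ℚ (Set.finite_range _)
  calc Module.finrank ℚ ↥(V gg ^ m) ≤
        Module.finrank ℚ ↥(Submodule.span ℚ (Set.range (fam gg m))) :=
        Submodule.finrank_mono h1
    _ ≤ Fintype.card ((Fin (m + 1) × Fin (m + 1)) × Fin (m + 1)) := finrank_range_le_card _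
    _ = 1 * (m + 1) ^ 3 := by simp; ring

theorem V_fd : FiniteDimensional ℚ (V gg) :=
  FiniteDimensional.span_of_finite ℚ ((Set.finite_range gg).insert 1)

theorem one_mem_V : (1 : B) ∈ V gg := Submodule.subset_span (Set.mem_insert _ _)

theorem adjoin_V (h : Algebra.adjoin ℚ (Set.range gg) = ⊤) :
    Algebra.adjoin ℚ (V gg : Set B) = ⊤ := by
  rw [eq_top_iff, ← h]
  apply Algebra.adjoin_mono
  rintro _ ⟨c, rfl⟩
  exact Submodule.subset_span (Set.mem_insert_of_mem _ ⟨c, rfl⟩)

end generic

theorem W_eq_zero (w : List Bool) (h : ∀ n i, ¬ occ w n i) : W w = 0 := by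
  apply Subtype.ext
  apply LinearMap.ext
  intro f
  funext n i
  rw [W_apply, if_neg (h n i)]
  rfl

theorem adjoin_g : Algebra.adjoin ℚ (Set.range g) = ⊤ := by
  rw [eq_top_iff]
  have h := Algebra.adjoin_adjoin_coe_preimage (R := ℚ) (s := Set.range op)
  rw [← h]
  apply Algebra.adjoin_mono
  rintro ⟨x, hx⟩ ⟨c, hc⟩
  simp only at hc
  subst hc
  exact ⟨c, rfl⟩

theorem A_ft : Algebra.FiniteType ℚ A := by
  rw [← Subalgebra.fg_iff_finiteType]
  exact ⟨(Set.finite_range op).toFinset, by rw [Set.Finite.coe_toFinset]⟩

/-! ### locality -/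

theorem local_prop (T : A) : ∃ c : ℚ, ∀ (h : M) (n i : ℕ),
    ((∀ j > i, h n j = 0) ∨ n * (n + 1) ≤ i) → (T : Module.End ℚ M) h n i = c * h n i := by
  obtain ⟨T, hT⟩ := T
  simp only
  induction hT using Algebra.adjoin_induction with
  | mem x hx =>
    obtain ⟨c, rfl⟩ := hx
    refine ⟨0, fun h n i hh => ?_⟩
    rw [op_apply, zero_mul]
    rcases hh with hh | hh
    · rw [hh (i + 1) (by omega)]; simp
    · rw [if_neg]
      intro h2
      have := h2.1
      omega
  | algebraMap r =>
    refine ⟨r, fun h n i _ => ?_⟩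
    simp [Module.algebraMap_end_apply]
  | add x y _ _ hx hy =>
    obtain ⟨a, ha⟩ := hx
    obtain ⟨b, hb⟩ := hy
    refine ⟨a + b, fun h n i hh => ?_⟩
    simp only [LinearMap.add_apply, Pi.add_apply]
    rw [ha h n i hh, hb h n i hh]
    ring
  | mul x y _ _ hx hy =>
    obtain ⟨a, ha⟩ := hx
    obtain ⟨b, hb⟩ := hy
    refine ⟨a * b, fun h n i hh => ?_⟩
    simp only [Module.End.mul_apply]
    rw [ha (y h) n i, hb h n i hh]
    · ring
    · rcases hh with hh | hh
      · left
        intro j hj
        rw [hb h n j (Or.inl fun j' hj' => hh j' (by omega)), hh j hj, mul_zero]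
      · right; exact hh

/-- elements act blockwise -/
theorem block_prop (T : A) (h : M) (n : ℕ) (hh : ∀ i, h n i = 0) (i : ℕ) :
    (T : Module.End ℚ M) h n i = 0 := by
  obtain ⟨c, hc⟩ := local_prop T
  rw [hc h n i (Or.inl fun j _ => hh j), hh i, mul_zero]

/-- the ideal of the block `n` -/
def I (n : ℕ) : TwoSidedIdeal A :=
  TwoSidedIdeal.mk' {T : A | ∀ (f : M) (n' i : ℕ), n' ≠ n → (T : Module.End ℚ M) f n' i = 0}
    (by intro f n' i _; rfl)
    (by
      intro x y hx hy f n' i hn
      have : ((x + y : A) : Module.End ℚ M) f n' i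
        = (x : Module.End ℚ M) f n' i + (y : Module.End ℚ M) f n' i := rfl
      rw [this, hx f n' i hn, hy f n' i hn, add_zero])
    (by
      intro x hx f n' i hn
      have : ((-x : A) : Module.End ℚ M) f n' i = - ((x : Module.End ℚ M) f n' i) := rfl
      rw [this, hx f n' i hn, neg_zero])
    (by
      intro x y hy f n' i hn
      have : ((x * y : A) : Module.End ℚ M) f n' i
        = (x : Module.End ℚ M) ((y : Module.End ℚ M) f) n' i := rfl
      rw [this]
      exact block_prop x _ n' (fun j => hy f n' j hn) i)
    (by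
      intro x y hx f n' i hn
      have : ((x * y : A) : Module.End ℚ M) f n' i
        = (x : Module.End ℚ M) ((y : Module.End ℚ M) f) n' i := rfl
      rw [this]
      exact hx _ n' i hn)

theorem mem_I (n : ℕ) (T : A) :
    T ∈ I n ↔ ∀ (f : M) (n' i : ℕ), n' ≠ n → (T : Module.End ℚ M) f n' i = 0 := by
  unfold I
  rw [TwoSidedIdeal.mem_mk']
  rfl

theorem I_strict (n : ℕ) (T : A) (hT : T ∈ I n) (h : M) (i : ℕ)
    (hh : (∀ j > i, h n j = 0) ∨ n * (n + 1) ≤ i) : (T : Module.End ℚ M) h n i = 0 := by
  obtain ⟨c, hc⟩ := local_prop T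
  have hc0 : c = 0 := by
    have h1 := hc (fun _ j => if j = 0 then 1 else 0) (n + 1) 0
      (Or.inl fun j hj => if_neg (by omega))
    rw [(mem_I n T).1 hT _ (n + 1) 0 (by omega)] at h1
    simpa using h1.symm
  rw [hc h n i hh, hc0, zero_mul]

theorem I_list (n : ℕ) (L : List A) (hL : ∀ T ∈ L, T ∈ I n) (hne : L ≠ []) (f : M) (i : ℕ)
    (hi : n * (n + 1) < i + L.length) : (L.prod : Module.End ℚ M) f n i = 0 := by
  induction L generalizing i with
  | nil => exact absurd rfl hne
  | cons T L ih =>
    have e : (((T :: L).prod : A) : Module.End ℚ M) f n i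
      = (T : Module.End ℚ M) ((L.prod : Module.End ℚ M) f) n i := by
      rw [List.prod_cons]; rfl
    have hT := hL T (List.mem_cons_self ..)
    rw [e]
    by_cases hi2 : n * (n + 1) ≤ i
    · exact I_strict n T hT _ i (Or.inr hi2)
    · apply I_strict n T hT _ i
      left
      intro j hj
      simp only [List.length_cons] at hi
      have hL' : L ≠ [] := by
        rintro rfl
        simp only [List.length_nil] at hi
        omega
      exact ih (fun S hS => hL S (List.mem_cons_of_mem _ hS)) hL' j (by omega)

theorem I_nilp (n : ℕ) : ∃ m : ℕ, ∀ f : Fin m → A, (∀ i, f i ∈ I n) → (List.ofFn f).prod = 0 := by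
  refine ⟨n * (n + 1) + 1, fun F hF => ?_⟩
  have hne : List.ofFn F ≠ [] := by
    intro h
    have := congrArg List.length h
    simp at this
  have hL : ∀ T ∈ List.ofFn F, T ∈ I n := by
    intro T hT
    rw [List.mem_ofFn] at hT
    obtain ⟨j, rfl⟩ := hT
    exact hF j
  apply Subtype.ext
  apply LinearMap.ext
  intro f
  funext n' i
  by_cases hn : n' = n
  · subst hn
    rw [I_list n' _ hL hne f i (by simp; omega)]
    rfl
  · obtain ⟨T, L, hTL⟩ := List.exists_cons_of_ne_nil hne
    rw [hTL]
    have e : (((T :: L).prod : A) : Module.End ℚ M) f n' i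
      = (T : Module.End ℚ M) ((L.prod : Module.End ℚ M) f) n' i := by
      rw [List.prod_cons]; rfl
    rw [e, (mem_I n T).1 (hL T (by rw [hTL]; exact List.mem_cons_self ..)) _ n' i hn]
    rfl

/-- `y x^n y x^n` -/
def zw (n : ℕ) : List Bool :=
  true :: (List.replicate n false ++ (true :: List.replicate n false))

theorem zw_length (n : ℕ) : (zw n).length = 2 * (n + 1) := by
  simp [zw]; omega

theorem zw_occ_iff (n n' i : ℕ) : occ (zw n) n' i ↔ ok true n' i ∧
    (∀ j < n, ok false n' (i + 1 + j)) ∧ ok true n' (i + 1 + n) ∧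
    (∀ j < n, ok false n' (i + 1 + n + 1 + j)) := by
  simp only [zw, occ, occ_append, occ_replicate, List.length_replicate]

theorem zw_mem (n : ℕ) : W (zw n) ∈ I n := by
  rw [mem_I]
  intro f n' i hn
  rw [W_apply, if_neg]
  rw [zw_occ_iff]
  rintro ⟨h1, h2, h3, _⟩
  have h1' : i % (n' + 1) = 0 := by simpa [ok] using h1.2
  have h3' : (i + 1 + n) % (n' + 1) = 0 := by simpa [ok] using h3.2
  have hd : (n' + 1) ∣ (n + 1) := by
    have := Nat.dvd_sub (Nat.dvd_of_mod_eq_zero h3') (Nat.dvd_of_mod_eq_zero h1')
    rwa [show i + 1 + n - i = n + 1 by omega] at this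
  have hle := Nat.le_of_dvd (by omega) hd
  have hlt : n' < n := by omega
  have h4 := (h2 n' hlt).2
  have h5 : (i + 1 + n') % (n' + 1) = 0 := by
    rw [show i + 1 + n' = i + (n' + 1) by omega, Nat.add_mod_right]
    exact h1'
  simp [h5] at h4

theorem zw_occ (n q : ℕ) (hq : (q + 2) * (n + 1) ≤ n * (n + 1)) :
    occ (zw n) n (q * (n + 1)) := by
  have key : ∀ r s, r < 2 → s < n + 1 →
      q * (n + 1) + r * (n + 1) + s < n * (n + 1) ∧
      (q * (n + 1) + r * (n + 1) + s) % (n + 1) = s := by
    intro r s hr hs
    constructor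
    · calc q * (n + 1) + r * (n + 1) + s < q * (n + 1) + r * (n + 1) + (n + 1) := by omega
        _ = (q + r + 1) * (n + 1) := by ring
        _ ≤ (q + 2) * (n + 1) := Nat.mul_le_mul_right _ (by omega)
        _ ≤ _ := hq
    · rw [show q * (n + 1) + r * (n + 1) + s = s + (q + r) * (n + 1) by ring,
        Nat.add_mul_mod_self_right, Nat.mod_eq_of_lt hs]
  rw [zw_occ_iff]
  refine ⟨?_, ?_, ?_, ?_⟩
  · have := key 0 0 (by omega) (by omega)
    simp only [Nat.zero_mul, Nat.add_zero] at this
    exact ⟨this.1, by simp⟩
  · intro j hj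
    have := key 0 (1 + j) (by omega) (by omega)
    simp only [Nat.zero_mul, Nat.add_zero] at this
    rw [← Nat.add_assoc] at this
    refine ⟨this.1, ?_⟩
    rw [this.2]; simp
  · have := key 1 0 (by omega) (by omega)
    simp only [Nat.one_mul, Nat.add_zero] at this
    rw [show q * (n + 1) + 1 + n = q * (n + 1) + (n + 1) by ring]
    refine ⟨this.1, ?_⟩
    rw [this.2]; simp
  · intro j hj
    have := key 1 (1 + j) (by omega) (by omega)
    simp only [Nat.one_mul] at this
    rw [show q * (n + 1) + 1 + n + 1 + j = q * (n + 1) + (n + 1) + (1 + j) by ring]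
    refine ⟨this.1, ?_⟩
    rw [this.2]; simp

theorem zw_pow (n m q : ℕ) (h : q + 2 * m ≤ n) :
    ((W (zw n) ^ m : A) : Module.End ℚ M) (fun _ _ => 1) n (q * (n + 1)) = 1 := by
  induction m generalizing q with
  | zero => rfl
  | succ m ih =>
    rw [pow_succ']
    have e : ((W (zw n) * W (zw n) ^ m : A) : Module.End ℚ M) (fun _ _ => 1) n (q * (n + 1))
      = (W (zw n) : Module.End ℚ M)
        (((W (zw n) ^ m : A) : Module.End ℚ M) (fun _ _ => 1)) n (q * (n + 1)) := rfl
    rw [e, W_apply, if_pos (zw_occ n q (Nat.mul_le_mul_right _ (by omega))), zw_length]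
    rw [show q * (n + 1) + 2 * (n + 1) = (q + 2) * (n + 1) by ring]
    exact ih (q + 2) (by omega)

theorem main : ¬ (∀ (k : Type) [Field k] (A : Type) [Ring A] [Algebra k A],
      Algebra.FiniteType k A →
      (∃ V : Submodule k A, FiniteDimensional k V ∧ (1 : A) ∈ V ∧
          Algebra.adjoin k (V : Set A) = ⊤ ∧
          ∃ C d : ℕ, ∀ n : ℕ, Module.finrank k ↥(V ^ n) ≤ C * (n + 1) ^ d) →
      ∃ N : TwoSidedIdeal A,
        (∃ m : ℕ, ∀ f : Fin m → A, (∀ i, f i ∈ N) → (List.ofFn f).prod = 0) ∧
        ∀ I : TwoSidedIdeal A,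
          (∃ m : ℕ, ∀ f : Fin m → A, (∀ i, f i ∈ I) → (List.ofFn f).prod = 0) → I ≤ N) := by
  intro H
  obtain ⟨N, ⟨m, hm⟩, hN⟩ := H ℚ A A_ft
    ⟨V g, V_fd g, one_mem_V g, adjoin_V g adjoin_g, 1, 3, finrank_V_pow g W_eq_zero⟩
  have h1 : I (2 * m) ≤ N := hN _ (I_nilp _)
  have h2 : W (zw (2 * m)) ∈ N := h1 (zw_mem _)
  have h3 := hm (fun _ => W (zw (2 * m))) (fun _ => h2)
  rw [List.ofFn_const, List.prod_replicate] at h3
  have h4 := zw_pow (2 * m) m 0 (by omega)
  rw [h3] at h4
  simp at h4

end Run7.h958.Nil
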