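import Mathlib

set_option autoImplicit false

/-!
The double cover of the wedge of two projective planes: two spheres glued at two points.
The cover is not unicoherent, the wedge is.
-/

namespace Run7.h958.RP

open Set Topology

/-! ### unicoherence from lifting of maps to the circle -/

theorem const_of_exp {Y : Type*} [TopologicalSpace Y] {A : Set Y} (hA : IsPreconnected A)
    (d : Y → ℝ) (hd : ContinuousOn d A) (h1 : ∀ x ∈ A, Circle.exp (d x) = 1) :
    ∀ x ∈ A, ∀ y ∈ A, d x = d y := by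
  have key : ∀ x ∈ A, ∀ y ∈ A, ¬ d x < d y := by
    intro x hx y hy hlt
    have e : Circle.exp (d y - d x) = 1 := by rw [Circle.exp_sub, h1 x hx, h1 y hy, div_one]
    obtain ⟨n, hn⟩ := Circle.exp_eq_one.1 e
    have hn0 : (0 : ℝ) < n := by
      have : (0 : ℝ) < n * (2 * Real.pi) := by linarith
      exact (mul_pos_iff_of_pos_right (by positivity)).1 this
    have hn1 : (1 : ℝ) ≤ n := by exact_mod_cast (by exact_mod_cast hn0 : (0 : ℤ) < n)
    have hpi := Real.pi_pos
    have hmem : d x + Real.pi ∈ d '' A :=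
      (hA.image d hd).Icc_subset (mem_image_of_mem d hx) (mem_image_of_mem d hy)
        ⟨by linarith, by nlinarith⟩
    obtain ⟨z, hz, hz2⟩ := hmem
    have := h1 z hz
    rw [hz2, Circle.exp_add, h1 x hx, one_mul] at this
    exact Circle.exp_pi_ne_one this
  intro x hx y hy
  exact le_antisymm (not_lt.1 (key y hy x hx)) (not_lt.1 (key x hx y hy))

theorem unicoherent_of_lift {Y : Type*} [MetricSpace Y]
    (hl : ∀ g : C(Y, Circle), ∃ h : C(Y, ℝ), ∀ y, Circle.exp (h y) = g y)
    {A B : Set Y} (hA : IsClosed A) (hB : IsClosed B) (hAc : IsPreconnected A)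
    (hBc : IsPreconnected B) (hun : A ∪ B = univ) : IsPreconnected (A ∩ B) := by
  classical
  rw [isPreconnected_closed_iff]
  intro t t' ht ht' hcov hn hn'
  by_contra hcon
  rw [not_nonempty_iff_eq_empty] at hcon
  obtain ⟨p, ⟨hpA, hpB⟩, hpt⟩ := hn
  obtain ⟨q, ⟨hqA, hqB⟩, hqt⟩ := hn'
  have hP : IsClosed (A ∩ B ∩ t) := (hA.inter hB).inter ht
  have hQ : IsClosed (A ∩ B ∩ t') := (hA.inter hB).inter ht'
  have hPQ : Disjoint (A ∩ B ∩ t) (A ∩ B ∩ t') := by
    rw [disjoint_left]
    rintro x ⟨hx, hxt⟩ ⟨-, hxt'⟩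
    have : x ∈ A ∩ B ∩ (t ∩ t') := ⟨hx, hxt, hxt'⟩
    rw [hcon] at this
    exact this
  obtain ⟨u, hu0, hu1, hu⟩ := exists_continuous_zero_one_of_isClosed hP hQ hPQ
  set g : Y → Circle := fun x => if x ∈ A then Circle.exp (Real.pi * u x)
    else Circle.exp (-(Real.pi * u x)) with hg
  have huc : Continuous u := u.continuous
  have gA : ∀ x ∈ A, g x = Circle.exp (Real.pi * u x) := by
    intro x hx; simp [hg, hx]
  have gB : ∀ x ∈ B, g x = Circle.exp (-(Real.pi * u x)) := by
    intro x hx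
    by_cases hxA : x ∈ A
    · rw [gA x hxA]
      have : x ∈ t ∪ t' := hcov ⟨hxA, hx⟩
      rcases this with h | h
      · have : u x = 0 := hu0 ⟨⟨hxA, hx⟩, h⟩
        rw [this]; simp
      · have : u x = 1 := hu1 ⟨⟨hxA, hx⟩, h⟩
        rw [this, mul_one]
        ext
        rw [Circle.coe_exp, Circle.coe_exp]
        push_cast
        rw [neg_mul, Complex.exp_neg, Complex.exp_pi_mul_I]
        norm_num
    · simp [hg, hxA]
  have hgc : Continuous g := by
    have h1 : ContinuousOn g (A ∪ B) := by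
      apply ContinuousOn.union_of_isClosed _ _ hA hB
      · have : ContinuousOn (fun x => Circle.exp (Real.pi * u x)) A :=
          (Circle.exp.continuous.comp (continuous_const.mul huc)).continuousOn
        exact this.congr gA
      · have : ContinuousOn (fun x => Circle.exp (-(Real.pi * u x))) B :=
          (Circle.exp.continuous.comp (continuous_const.mul huc).neg).continuousOn
        exact this.congr gB
    rw [hun] at h1
    exact continuousOn_univ.1 h1
  obtain ⟨h, hh⟩ := hl ⟨g, hgc⟩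
  have c1 := const_of_exp hAc (fun x => h x - Real.pi * u x)
    (h.continuous.sub (continuous_const.mul huc)).continuousOn (by
      intro x hx
      have := hh x
      simp only [ContinuousMap.coe_mk] at this
      rw [Circle.exp_sub, this, gA x hx, div_self']) p hpA q hqA
  have c2 := const_of_exp hBc (fun x => h x - -(Real.pi * u x))
    (h.continuous.sub (continuous_const.mul huc).neg).continuousOn (by
      intro x hx
      have := hh x
      simp only [ContinuousMap.coe_mk] at this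
      rw [Circle.exp_sub, this, gB x hx, div_self']) p hpB q hqB
  have up : u p = 0 := hu0 ⟨⟨hpA, hpB⟩, hpt⟩
  have uq : u q = 1 := hu1 ⟨⟨hqA, hqB⟩, hqt⟩
  simp only [up, uq] at c1 c2
  have := Real.pi_pos
  linarith

/-! ### The spaces -/

abbrev E := ℂ × ℂ × ℝ

/-- the sphere in `ℂ × ℝ` -/
def S : Set (ℂ × ℝ) := {p | ‖p.1‖ ^ 2 + p.2 ^ 2 = 1}

/-- the two embeddings -/
def inj : Bool → ℂ × ℝ → E
  | false, p => (p.1, 0, p.2)
  | true, p => (0, p.1, p.2)

theorem inj_cont (b : Bool) : Continuous (inj b) := by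
  cases b <;> unfold inj <;> fun_prop

/-- the cover -/
def X : Set E := inj false '' S ∪ inj true '' S

theorem mem_X_iff (x : E) : x ∈ X ↔ ∃ b, ∃ p ∈ S, inj b p = x := by
  unfold X
  constructor
  · rintro (⟨p, hp, rfl⟩ | ⟨p, hp, rfl⟩)
    · exact ⟨false, p, hp, rfl⟩
    · exact ⟨true, p, hp, rfl⟩
  · rintro ⟨b, p, hp, rfl⟩
    cases b
    · exact Or.inl ⟨p, hp, rfl⟩
    · exact Or.inr ⟨p, hp, rfl⟩

theorem neg_mem_X (x : E) (hx : x ∈ X) : -x ∈ X := by
  rw [mem_X_iff] at hx ⊢
  obtain ⟨b, p, hp, rfl⟩ := hx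
  refine ⟨b, -p, ?_, ?_⟩
  · simp only [S, mem_ofPred_eq, Prod.fst_neg, Prod.snd_neg, norm_neg, neg_sq] at hp ⊢
    exact hp
  · cases b
    · simp [inj]
    · simp only [inj, Prod.fst_neg, Prod.snd_neg, Prod.neg_mk, neg_zero]

/-- the three-dimensional Euclidean sphere maps onto `S`. -/
def sp (v : EuclideanSpace ℝ (Fin 3)) : ℂ × ℝ := (⟨v 0, v 1⟩, v 2)

theorem sp_cont : Continuous sp := by
  unfold sp
  have h0 : Continuous fun v : EuclideanSpace ℝ (Fin 3) => (⟨v 0, v 1⟩ : ℂ) := by
    have : (fun v : EuclideanSpace ℝ (Fin 3) => (⟨v 0, v 1⟩ : ℂ))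
        = fun v => Complex.equivRealProdCLM.symm (v 0, v 1) := by
      funext v
      rfl
    rw [this]
    fun_prop
  fun_prop

theorem sp_image : sp '' Metric.sphere (0 : EuclideanSpace ℝ (Fin 3)) 1 = S := by
  have key : ∀ v : EuclideanSpace ℝ (Fin 3), ‖v‖ ^ 2 = ‖(sp v).1‖ ^ 2 + (sp v).2 ^ 2 := by
    intro v
    rw [EuclideanSpace.real_norm_sq_eq, Fin.sum_univ_three]
    simp only [sp]
    rw [← Complex.normSq_eq_norm_sq, Complex.normSq_mk]
    ring
  ext p
  constructor
  · rintro ⟨v, hv, rfl⟩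
    have := key v
    rw [mem_sphere_zero_iff_norm.1 hv] at this
    simp only [S, mem_ofPred_eq]
    linarith
  · intro hp
    let v : EuclideanSpace ℝ (Fin 3) := WithLp.toLp 2 ![p.1.re, p.1.im, p.2]
    have hv : sp v = p := by
      simp only [sp, v]
      rfl
    refine ⟨v, ?_, hv⟩
    rw [mem_sphere_zero_iff_norm]
    have := key v
    rw [hv] at this
    simp only [S, mem_ofPred_eq] at hp
    rw [hp] at this
    have h0 := norm_nonneg v
    nlinarith

theorem S_compact : IsCompact S := by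
  rw [← sp_image]
  exact (isCompact_sphere _ _).image sp_cont

theorem S_conn : IsConnected S := by
  rw [← sp_image]
  apply IsConnected.image _ _ sp_cont.continuousOn
  apply isConnected_sphere _ _ zero_le_one
  rw [← Module.finrank_eq_rank]
  simp

theorem north_mem : ((0, 1) : ℂ × ℝ) ∈ S := by simp [S]

theorem inj_north (b : Bool) : inj b (0, 1) = (0, 0, 1) := by cases b <;> rfl

theorem X_compact : IsCompact X :=
  (S_compact.image (inj_cont _)).union (S_compact.image (inj_cont _))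

theorem X_conn : IsConnected X := by
  apply IsConnected.union _ (S_conn.image _ (inj_cont _).continuousOn)
    (S_conn.image _ (inj_cont _).continuousOn)
  exact ⟨(0, 0, 1), ⟨(0, 1), north_mem, rfl⟩, ⟨(0, 1), north_mem, rfl⟩⟩

instance : CompactSpace X := isCompact_iff_compactSpace.1 X_compact
instance : ConnectedSpace X := isConnected_iff_connectedSpace.1 X_conn

/-- the sphere as a type -/
abbrev T := Metric.sphere (0 : EuclideanSpace ℝ (Fin 3)) 1

instance : Fact (Module.finrank ℝ (EuclideanSpace ℝ (Fin 3)) = 2 + 1) := ⟨by simp⟩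

theorem T_loc : LocallyPathConnectedSpace T :=
  ChartedSpace.locallyPathConnectedSpace (EuclideanSpace ℝ (Fin 2)) T

def cov : T ⊕ T → X :=
  Sum.elim (fun v => ⟨inj false (sp v), Or.inl ⟨sp v, by
      rw [← sp_image]; exact mem_image_of_mem _ v.2, rfl⟩⟩)
    (fun v => ⟨inj true (sp v), Or.inr ⟨sp v, by
      rw [← sp_image]; exact mem_image_of_mem _ v.2, rfl⟩⟩)

theorem cov_cont : Continuous cov := by
  unfold cov
  apply Continuous.sumElim
  · exact Continuous.subtype_mk ((inj_cont _).comp (sp_cont.comp continuous_subtype_val)) _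
  · exact Continuous.subtype_mk ((inj_cont _).comp (sp_cont.comp continuous_subtype_val)) _

theorem cov_surj : Function.Surjective cov := by
  rintro ⟨x, hx⟩
  rcases hx with ⟨p, hp, rfl⟩ | ⟨p, hp, rfl⟩
  · rw [← sp_image] at hp
    obtain ⟨v, hv, rfl⟩ := hp
    exact ⟨Sum.inl ⟨v, hv⟩, rfl⟩
  · rw [← sp_image] at hp
    obtain ⟨v, hv, rfl⟩ := hp
    exact ⟨Sum.inr ⟨v, hv⟩, rfl⟩

instance : LocallyConnectedSpace X := by
  have := T_loc
  have h1 : LocallyConnectedSpace (T ⊕ T) := inferInstance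
  have h2 : IsQuotientMap cov := cov_cont.isClosedMap.isQuotientMap cov_cont cov_surj
  exact h2.isCoinducing.locallyConnectedSpace

/-! ### The quotient -/

/-- the map that identifies `x` and `-x` -/
def Psi (p : E) : ℂ × ℂ × ℂ × ℂ := (p.1 ^ 2, p.2.1 ^ 2, p.1 * p.2.2, p.2.1 * p.2.2)

theorem Psi_cont : Continuous Psi := by unfold Psi; fun_prop

theorem Psi_neg (p : E) : Psi (-p) = Psi p := by
  simp [Psi]

def Y : Set (ℂ × ℂ × ℂ × ℂ) := Psi '' X

def f (p : X) : Y := ⟨Psi p, mem_image_of_mem _ p.2⟩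

theorem f_cont : Continuous f := Continuous.subtype_mk (Psi_cont.comp continuous_subtype_val) _

theorem f_surj : Function.Surjective f := by
  rintro ⟨_, ⟨x, hx, rfl⟩⟩
  exact ⟨⟨x, hx⟩, rfl⟩

instance : CompactSpace Y := isCompact_iff_compactSpace.1 (X_compact.image Psi_cont)

theorem S_aux (z z' : ℂ) (t t' : ℝ) (h : ‖z‖ ^ 2 + t ^ 2 = 1) (h' : ‖z'‖ ^ 2 + t' ^ 2 = 1)
    (h1 : z ^ 2 = z' ^ 2) (h2 : z * t = z' * t') : (z' = z ∧ t' = t) ∨ (z' = -z ∧ t' = -t) := by
  have hn : ‖z‖ ^ 2 = ‖z'‖ ^ 2 := by rw [← norm_pow, ← norm_pow, h1]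
  have ht : t' ^ 2 = t ^ 2 := by linarith
  by_cases hz : z = 0
  · subst hz
    have hz' : z' = 0 := by
      have : z' ^ 2 = 0 := by rw [← h1]; simp
      exact pow_eq_zero_iff (by norm_num) |>.1 this
    subst hz'
    rcases sq_eq_sq_iff_eq_or_eq_neg.1 ht with h | h
    · exact Or.inl ⟨rfl, h⟩
    · exact Or.inr ⟨by simp, h⟩
  · rcases sq_eq_sq_iff_eq_or_eq_neg.1 h1 with h3 | h3
    · left
      refine ⟨h3.symm, ?_⟩
      rw [← h3] at h2
      have := mul_left_cancel₀ hz h2
      exact_mod_cast this.symm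
    · right
      have h4 : z' = -z := by rw [h3, neg_neg]
      refine ⟨h4, ?_⟩
      rw [h4, neg_mul, ← mul_neg] at h2
      have := mul_left_cancel₀ hz h2
      have h5 : t = -t' := by exact_mod_cast this
      linarith

theorem inj_aux (b b' : Bool) (p q : ℂ × ℝ) (hp : p ∈ S) (hq : q ∈ S)
    (h : Psi (inj b p) = Psi (inj b' q)) :
    (q = p ∧ (b = b' ∨ p.1 = 0)) ∨ (q = -p ∧ (b = b' ∨ p.1 = 0)) := by
  obtain ⟨z, t⟩ := p
  obtain ⟨z', t'⟩ := q
  simp only [S, mem_ofPred_eq] at hp hq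
  cases b <;> cases b' <;> simp only [Psi, inj, Prod.mk.injEq] at h
  · rcases S_aux z z' t t' hp hq h.1 h.2.2.1 with ⟨a1, a2⟩ | ⟨a1, a2⟩
    · left; simp [a1, a2]
    · right; simp [a1, a2]
  · have hz : z = 0 := by simpa using h.1
    have hz' : z' = 0 := by simpa using h.2.1.symm
    subst hz
    subst hz'
    rcases S_aux 0 0 t t' hp hq rfl (by simp) with ⟨a1, a2⟩ | ⟨a1, a2⟩
    · left; simp [a2]
    · right; simp [a2]
  · have hz : z = 0 := by simpa using h.2.1
    have hz' : z' = 0 := by simpa using h.1.symm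
    subst hz
    subst hz'
    rcases S_aux 0 0 t t' hp hq rfl (by simp) with ⟨a1, a2⟩ | ⟨a1, a2⟩
    · left; simp [a2]
    · right; simp [a2]
  · rcases S_aux z z' t t' hp hq h.2.1 h.2.2.2 with ⟨a1, a2⟩ | ⟨a1, a2⟩
    · left; simp [a1, a2]
    · right; simp [a1, a2]

theorem inj_neg (b : Bool) (p : ℂ × ℝ) : inj b (-p) = -inj b p := by
  cases b
  · simp [inj]
  · simp only [inj, Prod.fst_neg, Prod.snd_neg, Prod.neg_mk, neg_zero]

theorem f_eq (x y : X) (h : f x = f y) : (y : E) = x ∨ (y : E) = -x := by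
  obtain ⟨x, hx⟩ := x
  obtain ⟨y, hy⟩ := y
  have h' : Psi x = Psi y := congrArg Subtype.val h
  rw [mem_X_iff] at hx hy
  obtain ⟨b, p, hp, rfl⟩ := hx
  obtain ⟨b', q, hq, rfl⟩ := hy
  simp only
  rcases inj_aux b b' p q hp hq h' with ⟨rfl, h2⟩ | ⟨rfl, h2⟩
  · left
    rcases h2 with rfl | h2
    · rfl
    · cases b <;> cases b' <;> simp [inj, h2]
  · right
    rw [inj_neg]
    rcases h2 with rfl | h2
    · rfl
    · cases b <;> cases b' <;> simp [inj, h2]

def ng (x : X) : X := ⟨-x, neg_mem_X _ x.2⟩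

theorem ng_cont : Continuous ng := Continuous.subtype_mk continuous_subtype_val.neg _

theorem f_ng (x : X) : f (ng x) = f x := Subtype.ext (Psi_neg _)

theorem f_openMap : IsOpenMap f := by
  have hq : IsQuotientMap f := f_cont.isClosedMap.isQuotientMap f_cont f_surj
  intro U hU
  rw [← hq.isOpen_preimage]
  have : f ⁻¹' (f '' U) = U ∪ ng ⁻¹' U := by
    ext x
    constructor
    · rintro ⟨y, hy, hxy⟩
      rcases f_eq _ _ hxy with h | h
      · left
        have : x = y := Subtype.ext h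
        rw [this]; exact hy
      · right
        have : ng x = y := Subtype.ext (by
          change -(x : E) = y
          rw [h, neg_neg])
        rw [mem_preimage, this]; exact hy
    · rintro (h | h)
      · exact ⟨x, h, rfl⟩
      · exact ⟨ng x, h, f_ng x⟩
  rw [this]
  exact hU.union (hU.preimage ng_cont)

theorem norm_ge (x : X) : 1 / 2 ≤ ‖(x : E)‖ := by
  obtain ⟨x, hx⟩ := x
  rw [mem_X_iff] at hx
  obtain ⟨b, ⟨z, t⟩, hp, rfl⟩ := hx
  simp only [S, mem_ofPred_eq] at hp
  by_contra hcon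
  push Not at hcon
  have h1 : ‖z‖ < 1 / 2 := by
    refine lt_of_le_of_lt ?_ hcon
    cases b
    · exact norm_fst_le ((z, 0, t) : E)
    · exact (norm_fst_le ((z, t) : ℂ × ℝ)).trans (norm_snd_le ((0, z, t) : E))
  have h2 : |t| < 1 / 2 := by
    refine lt_of_le_of_lt ?_ hcon
    cases b
    · exact (norm_snd_le ((0, t) : ℂ × ℝ)).trans (norm_snd_le ((z, 0, t) : E))
    · exact (norm_snd_le ((z, t) : ℂ × ℝ)).trans (norm_snd_le ((0, z, t) : E))
  have h3 : t ^ 2 < 1 / 4 := by
    rw [← sq_abs]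
    nlinarith [abs_nonneg t]
  have h4 : ‖z‖ ^ 2 < 1 / 4 := by nlinarith [norm_nonneg z]
  linarith

theorem f_localHomeo : IsLocalHomeomorph f := by
  rw [isLocalHomeomorph_iff_isOpenEmbedding_restrict]
  intro x
  refine ⟨Metric.ball x (1 / 2), Metric.ball_mem_nhds _ (by norm_num), ?_⟩
  apply IsOpenEmbedding.of_continuous_injective_isOpenMap
  · exact f_cont.comp continuous_subtype_val
  · intro y y' hyy
    have h : f y = f y' := hyy
    rcases f_eq _ _ h with h' | h'
    · exact Subtype.ext (Subtype.ext h'.symm)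
    · exfalso
      have h1 : dist (y : X) x < 1 / 2 := y.2
      have h2 : dist (y' : X) x < 1 / 2 := y'.2
      have h3 : dist (y : X) (y' : X) < 1 := by
        have := dist_triangle_right (y : X) (y' : X) x
        linarith
      rw [Subtype.dist_eq, h', dist_eq_norm, sub_neg_eq_add, ← two_smul ℝ, norm_smul] at h3
      have := norm_ge (y : X)
      norm_num at h3
      linarith
  · exact f_openMap.domRestrict Metric.isOpen_ball

/-! ### `X` is not unicoherent -/

theorem X_not : ∃ A B : Set X, IsClosed A ∧ IsClosed B ∧ IsConnected A ∧ IsConnected B ∧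
    A ∪ B = Set.univ ∧ ¬ IsConnected (A ∩ B) := by
  have hsub : ∀ b, inj b '' S ⊆ X := by
    intro b
    cases b
    · exact subset_union_left
    · exact subset_union_right
  have hcl : ∀ b, IsClosed ((Subtype.val : X → E) ⁻¹' (inj b '' S)) := fun b =>
    (S_compact.image (inj_cont b)).isClosed.preimage continuous_subtype_val
  have hco : ∀ b, IsConnected ((Subtype.val : X → E) ⁻¹' (inj b '' S)) := by
    intro b
    have h1 : IsConnected (inj b '' S) := S_conn.image _ (inj_cont b).continuousOn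
    refine ⟨?_, ?_⟩
    · obtain ⟨y, hy⟩ := h1.nonempty
      exact ⟨⟨y, hsub b hy⟩, hy⟩
    · rw [← Topology.IsInducing.subtypeVal.isPreconnected_image, Subtype.image_preimage_coe,
        inter_eq_self_of_subset_right (hsub b)]
      exact h1.isPreconnected
  refine ⟨_, _, hcl false, hcl true, hco false, hco true, ?_, ?_⟩
  · rw [← preimage_union]
    ext x
    simp only [mem_preimage, mem_univ, iff_true]
    exact x.2
  · intro hc
    have him := hc.isPreconnected.image (fun x : X => (x : E).2.2)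
      (continuous_subtype_val.snd.snd).continuousOn
    have hN : (1 : ℝ) ∈ (fun x : X => (x : E).2.2) ''
        ((Subtype.val : X → E) ⁻¹' (inj false '' S) ∩ (Subtype.val : X → E) ⁻¹' (inj true '' S)) :=
      ⟨⟨(0, 0, 1), hsub false ⟨(0, 1), north_mem, rfl⟩⟩,
        ⟨⟨(0, 1), north_mem, rfl⟩, ⟨(0, 1), north_mem, rfl⟩⟩, rfl⟩
    have hs : ((0, -1) : ℂ × ℝ) ∈ S := by simp [S]
    have hM : (-1 : ℝ) ∈ (fun x : X => (x : E).2.2) ''
        ((Subtype.val : X → E) ⁻¹' (inj false '' S) ∩ (Subtype.val : X → E) ⁻¹' (inj true '' S)) :=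
      ⟨⟨(0, 0, -1), hsub false ⟨(0, -1), hs, rfl⟩⟩,
        ⟨⟨(0, -1), hs, rfl⟩, ⟨(0, -1), hs, rfl⟩⟩, rfl⟩
    obtain ⟨⟨x, hx⟩, ⟨⟨p, hp, h1⟩, ⟨q, hq, h2⟩⟩, h3⟩ :=
      him.Icc_subset hM hN (show (0 : ℝ) ∈ Icc (-1 : ℝ) 1 by constructor <;> norm_num)
    simp only at h1 h2 h3
    obtain ⟨z, t⟩ := p
    obtain ⟨z', t'⟩ := q
    simp only [S, mem_ofPred_eq] at hp hq
    rw [← h2] at h1 h3
    simp only [inj, Prod.mk.injEq] at h1 h3
    have e1 : z = 0 := h1.1
    have e2 : t = 0 := by rw [h1.2.2, h3]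
    rw [e1, e2] at hp
    norm_num at hp

/-! ### lifting for `Y` -/

noncomputable def rr (z : ℂ) : ℂ := ((max 1 ‖z‖)⁻¹ : ℝ) • z

theorem rr_cont : Continuous rr := by
  unfold rr
  have h1 : Continuous fun z : ℂ => (max 1 ‖z‖)⁻¹ := by
    apply Continuous.inv₀ (by fun_prop)
    intro z
    have : (1 : ℝ) ≤ max 1 ‖z‖ := le_max_left _ _
    linarith
  exact h1.smul continuous_id

theorem rr_norm (z : ℂ) : ‖rr z‖ ≤ 1 := by
  unfold rr
  have h1 : (1 : ℝ) ≤ max 1 ‖z‖ := le_max_left _ _
  rw [norm_smul, norm_inv, Real.norm_eq_abs, abs_of_pos (by linarith), inv_mul_le_iff₀ (by linarith),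
    mul_one]
  exact le_max_right _ _

theorem rr_id (z : ℂ) (hz : ‖z‖ ≤ 1) : rr z = z := by
  unfold rr
  rw [max_eq_left hz]; simp

noncomputable def hemi (z : ℂ) : ℂ × ℝ := (rr z, √(1 - ‖rr z‖ ^ 2))

theorem hemi_cont : Continuous hemi := by
  unfold hemi
  have := rr_cont
  fun_prop

theorem hemi_mem (z : ℂ) : hemi z ∈ S := by
  simp only [hemi, S, mem_ofPred_eq]
  have h1 := rr_norm z
  have h2 := norm_nonneg (rr z)
  rw [Real.sq_sqrt (by nlinarith)]
  ring

noncomputable def sig (b : Bool) (z : ℂ) : X := ⟨inj b (hemi z), (mem_X_iff _).2 ⟨b, _, hemi_mem z, rfl⟩⟩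

theorem sig_cont (b : Bool) : Continuous (sig b) :=
  Continuous.subtype_mk ((inj_cont b).comp hemi_cont) _

theorem sig_zero (b b' : Bool) : sig b 0 = sig b' 0 := by
  apply Subtype.ext
  have : hemi 0 = (0, 1) := by
    unfold hemi
    rw [rr_id 0 (by simp)]; simp
  change inj b (hemi 0) = inj b' (hemi 0)
  rw [this, inj_north, inj_north]

theorem f_sig (b b' : Bool) (z z' : ℂ) (hz : ‖z‖ ≤ 1) (hz' : ‖z'‖ ≤ 1)
    (h : f (sig b z) = f (sig b' z')) :
    (z' = z ∧ (b = b' ∨ z = 0)) ∨ (‖z‖ = 1 ∧ z' = -z ∧ b = b') := by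
  have h' : Psi (inj b (hemi z)) = Psi (inj b' (hemi z')) := congrArg Subtype.val h
  rcases inj_aux b b' _ _ (hemi_mem z) (hemi_mem z') h' with ⟨h1, h2⟩ | ⟨h1, h2⟩
  · left
    have h3 : rr z' = rr z := congrArg Prod.fst h1
    rw [rr_id z hz, rr_id z' hz'] at h3
    refine ⟨h3, ?_⟩
    rcases h2 with h2 | h2
    · exact Or.inl h2
    · right
      have : rr z = 0 := h2
      rwa [rr_id z hz] at this
  · right
    have h3 : rr z' = -rr z := congrArg Prod.fst h1
    have h4 : √(1 - ‖rr z'‖ ^ 2) = -√(1 - ‖rr z‖ ^ 2) := congrArg Prod.snd h1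
    rw [rr_id z hz, rr_id z' hz'] at h3
    rw [rr_id z hz, rr_id z' hz'] at h4
    have h5 : √(1 - ‖z‖ ^ 2) = 0 := by
      have a1 := Real.sqrt_nonneg (1 - ‖z‖ ^ 2)
      have a2 := Real.sqrt_nonneg (1 - ‖z'‖ ^ 2)
      linarith
    have h6 : ‖z‖ = 1 := by
      have a3 := norm_nonneg z
      rw [Real.sqrt_eq_zero (by nlinarith)] at h5
      nlinarith
    refine ⟨h6, h3, ?_⟩
    rcases h2 with h2 | h2
    · exact h2
    · exfalso
      have : rr z = 0 := h2
      rw [rr_id z hz] at this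
      rw [this] at h6
      simp at h6

theorem f_sig_neg (b : Bool) (z : ℂ) (hz : ‖z‖ = 1) : f (sig b (-z)) = f (sig b z) := by
  apply Subtype.ext
  change Psi (inj b (hemi (-z))) = Psi (inj b (hemi z))
  have : hemi (-z) = -hemi z := by
    unfold hemi
    rw [rr_id z hz.le, rr_id (-z) (by rw [norm_neg]; exact hz.le), norm_neg, hz]
    simp
  rw [this, inj_neg, Psi_neg]

theorem lift_disc (g : C(Y, Circle)) (b : Bool) (θ : ℝ) (hθ : Circle.exp θ = g (f (sig b 0))) :
    ∃ F : C(ℂ, ℝ), F 0 = θ ∧ (∀ z, Circle.exp (F z) = g (f (sig b z))) ∧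
      ∀ z, ‖z‖ = 1 → F (-z) = F z := by
  obtain ⟨F, ⟨hF0, hF⟩, _⟩ := Circle.isCoveringMap_exp.existsUnique_continuousMap_lifts
    (⟨fun z => g (f (sig b z)), g.continuous.comp (f_cont.comp (sig_cont b))⟩ : C(ℂ, Circle))
    0 θ hθ
  have hF' : ∀ z, Circle.exp (F z) = g (f (sig b z)) := fun z => congrFun hF z
  refine ⟨F, hF0, hF', ?_⟩
  have hpre : IsPreconnected (Metric.sphere (0 : ℂ) 1) := by
    apply isPreconnected_sphere
    rw [← Module.finrank_eq_rank]
    simp
  have hc := const_of_exp hpre (fun z => F z - F (-z))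
    (F.continuous.sub (F.continuous.comp continuous_neg)).continuousOn (by
      intro z hz
      rw [mem_sphere_zero_iff_norm] at hz
      rw [Circle.exp_sub, hF', hF', f_sig_neg b z hz, div_self'])
  intro z hz
  have h1 := hc z (mem_sphere_zero_iff_norm.2 hz) (-z)
    (mem_sphere_zero_iff_norm.2 (by rw [norm_neg]; exact hz))
  simp only [neg_neg] at h1
  linarith

abbrev D := Metric.closedBall (0 : ℂ) 1

noncomputable def par : D ⊕ D → Y :=
  Sum.elim (fun z => f (sig false z)) (fun z => f (sig true z))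

theorem par_cont : Continuous par := by
  apply Continuous.sumElim
  · exact f_cont.comp ((sig_cont _).comp continuous_subtype_val)
  · exact f_cont.comp ((sig_cont _).comp continuous_subtype_val)

theorem par_surj : Function.Surjective par := by
  intro y
  obtain ⟨x, rfl⟩ := f_surj y
  -- we may take the last coordinate nonnegative
  have key : ∀ x : X, 0 ≤ (x : E).2.2 → ∃ w, par w = f x := by
    rintro ⟨x, hx⟩ h0
    rw [mem_X_iff] at hx
    obtain ⟨b, ⟨z, t⟩, hp, rfl⟩ := hx
    have ht : 0 ≤ t := by cases b <;> exact h0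
    simp only [S, mem_ofPred_eq] at hp
    have hz : ‖z‖ ≤ 1 := by
      have := norm_nonneg z
      nlinarith [sq_nonneg t]
    have hh : hemi z = (z, t) := by
      unfold hemi
      rw [rr_id z hz]
      have : 1 - ‖z‖ ^ 2 = t ^ 2 := by linarith
      rw [this, Real.sqrt_sq ht]
    cases b
    · refine ⟨Sum.inl ⟨z, by simpa using hz⟩, ?_⟩
      apply Subtype.ext
      change Psi (inj false (hemi z)) = Psi (inj false (z, t))
      rw [hh]
    · refine ⟨Sum.inr ⟨z, by simpa using hz⟩, ?_⟩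
      apply Subtype.ext
      change Psi (inj true (hemi z)) = Psi (inj true (z, t))
      rw [hh]
  rcases le_total 0 (x : E).2.2 with h | h
  · exact key x h
  · obtain ⟨w, hw⟩ := key (ng x) (by change 0 ≤ -(x : E).2.2; linarith)
    exact ⟨w, by rw [hw, f_ng]⟩

theorem lift_Y (g : C(Y, Circle)) : ∃ h : C(Y, ℝ), ∀ y, Circle.exp (h y) = g y := by
  obtain ⟨θ, hθ⟩ := Circle.exp_surjective (g (f (sig false 0)))
  obtain ⟨F, hF0, hF, hFn⟩ := lift_disc g false θ hθ
  obtain ⟨G, hG0, hG, hGn⟩ := lift_disc g true θ (by rw [hθ, sig_zero false true])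
  have hq : IsQuotientMap (⟨par, par_cont⟩ : C(D ⊕ D, Y)) :=
    par_cont.isClosedMap.isQuotientMap par_cont par_surj
  let H : C(D ⊕ D, ℝ) := ⟨Sum.elim (fun z => F z) (fun z => G z),
    Continuous.sumElim (F.continuous.comp continuous_subtype_val)
      (G.continuous.comp continuous_subtype_val)⟩
  have hfac : Function.FactorsThrough H (⟨par, par_cont⟩ : C(D ⊕ D, Y)) := by
    have hb : ∀ z : D, ‖(z : ℂ)‖ ≤ 1 := fun z => mem_closedBall_zero_iff.1 z.2
    rintro (z | z) (z' | z') h
    · rcases f_sig _ _ _ _ (hb z) (hb z') h with ⟨h1, _⟩ | ⟨h1, h2, _⟩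
      · change F z = F z'
        rw [h1]
      · change F z = F z'
        rw [h2, hFn _ h1]
    · rcases f_sig _ _ _ _ (hb z) (hb z') h with ⟨h1, h2⟩ | ⟨_, _, h3⟩
      · have h2' : (z : ℂ) = 0 := by
          rcases h2 with h2 | h2
          · exact absurd h2 (by decide)
          · exact h2
        change F z = G z'
        rw [h1, h2', hF0, hG0]
      · exact absurd h3 (by decide)
    · rcases f_sig _ _ _ _ (hb z) (hb z') h with ⟨h1, h2⟩ | ⟨_, _, h3⟩
      · have h2' : (z : ℂ) = 0 := by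
          rcases h2 with h2 | h2
          · exact absurd h2 (by decide)
          · exact h2
        change G z = F z'
        rw [h1, h2', hF0, hG0]
      · exact absurd h3 (by decide)
    · rcases f_sig _ _ _ _ (hb z) (hb z') h with ⟨h1, _⟩ | ⟨h1, h2, _⟩
      · change G z = G z'
        rw [h1]
      · change G z = G z'
        rw [h2, hGn _ h1]
  refine ⟨hq.lift H hfac, fun y => ?_⟩
  obtain ⟨w, rfl⟩ := par_surj y
  have h1 : (hq.lift H hfac) (par w) = H w := congrFun (congrArg DFunLike.coe (hq.lift_comp H hfac)) w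
  rw [h1]
  rcases w with z | z
  · exact hF z
  · exact hG z

instance : ConnectedSpace Y := f_surj.connectedSpace f_cont

theorem main : ¬ (∀ (X Y : Type) [MetricSpace X] [CompactSpace X] [ConnectedSpace X]
      [LocallyConnectedSpace X] [MetricSpace Y] (f : X → Y),
      IsLocalHomeomorph f → Function.Surjective f →
      (∃ A B : Set X, IsClosed A ∧ IsClosed B ∧ IsConnected A ∧ IsConnected B ∧
          A ∪ B = Set.univ ∧ ¬ IsConnected (A ∩ B)) →
      (∃ A B : Set Y, IsClosed A ∧ IsClosed B ∧ IsConnected A ∧ IsConnected B ∧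
          A ∪ B = Set.univ ∧ ¬ IsConnected (A ∩ B))) := by
  intro H
  obtain ⟨A, B, hA, hB, hAc, hBc, hun, hn⟩ := H X Y f f_localHomeo f_surj X_not
  apply hn
  refine ⟨?_, unicoherent_of_lift lift_Y hA hB hAc.isPreconnected hBc.isPreconnected hun⟩
  have := isPreconnected_closed_iff.1 (isPreconnected_univ (α := Y)) A B hA hB
    (by rw [hun]) (by simpa using hAc.nonempty) (by simpa using hBc.nonempty)
  simpa using this

end Run7.h958.RP
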