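import Mathlib

set_option autoImplicit false

/-!
The cone, from a point `a`, over the turning points of a zigzag line that converges to a bar:
uniformly pathwise connected but not uniformly arcwise connected.
-/

namespace Run7.h958.Zig

open Set

/-- the zigzag: first coordinate at the parameter `s`. -/
noncomputable def f (s : ℝ) : ℝ := (1 - Real.cos (Real.pi * s)) / 2

theorem f_cont : Continuous f := by unfold f; fun_prop

theorem f_mem (s : ℝ) : f s ∈ Icc (0 : ℝ) 1 := by
  unfold f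
  have h1 := Real.cos_le_one (Real.pi * s)
  have h2 := Real.neg_one_le_cos (Real.pi * s)
  constructor <;> linarith

theorem f_lip (s t : ℝ) : |f s - f t| ≤ 2 * |s - t| := by
  have h1 : |Real.cos (Real.pi * s) - Real.cos (Real.pi * t)| ≤ |Real.pi * s - Real.pi * t| := by
    have := Real.abs_cos_sub_cos_le (Real.pi * s) (Real.pi * t)
    exact this
  have h2 : f s - f t = - (Real.cos (Real.pi * s) - Real.cos (Real.pi * t)) / 2 := by
    unfold f; ring
  rw [h2, abs_div, abs_neg, abs_two]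
  rw [← mul_sub, abs_mul, abs_of_pos Real.pi_pos] at h1
  have h3 := Real.pi_le_four
  have h4 := abs_nonneg (s - t)
  nlinarith

theorem f_int (k : ℕ) : f k * (1 - f k) = 0 := by
  unfold f
  have h : Real.cos (Real.pi * k) = 1 ∨ Real.cos (Real.pi * k) = -1 := by
    rw [mul_comm, Real.cos_nat_mul_pi]
    exact neg_one_pow_eq_or ℝ k
  rcases h with h | h <;> rw [h] <;> norm_num

theorem f_zero : f 0 = 0 := by unfold f; simp

theorem f_even (k : ℕ) : f ((2 * k : ℕ) : ℝ) = 0 := by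
  unfold f
  rw [mul_comm, Real.cos_nat_mul_pi, pow_mul]; norm_num

theorem f_odd (k : ℕ) : f ((2 * k + 1 : ℕ) : ℝ) = 1 := by
  unfold f
  rw [mul_comm, Real.cos_nat_mul_pi, pow_succ, pow_mul]; norm_num

theorem f_third (k : ℕ) : f ((k : ℝ) + 1 / 3) = (1 - (-1) ^ k / 2) / 2 := by
  unfold f
  have : Real.pi * ((k : ℝ) + 1 / 3) = Real.pi / 3 + k * Real.pi := by ring
  rw [this, Real.cos_add_nat_mul_pi, Real.cos_pi_div_three]
  ring

noncomputable def h (w : ℝ) : ℝ := w * f (1 / w - 1)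

theorem h_cont : Continuous h := by
  rw [continuous_iff_continuousAt]
  intro w
  by_cases hw : w = 0
  · subst hw
    have h0 : h 0 = 0 := by unfold h; simp
    unfold ContinuousAt
    rw [h0]
    apply squeeze_zero_norm (a := fun w => |w|)
    · intro w
      unfold h
      rw [Real.norm_eq_abs, abs_mul]
      have := f_mem (1 / w - 1)
      rw [abs_of_nonneg this.1]
      have h2 := abs_nonneg w
      nlinarith [this.2]
    · have : Continuous fun w : ℝ => |w| := continuous_abs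
      have h2 := this.tendsto 0
      simpa using h2
  · unfold h
    apply ContinuousAt.mul continuousAt_id
    apply f_cont.continuousAt.comp
    apply ContinuousAt.sub _ continuousAt_const
    exact continuousAt_const.div continuousAt_id hw

/-- the parameter set -/
def K : Set (ℝ × ℝ × ℝ) :=
  {q | q.1 ∈ Icc (0 : ℝ) 1 ∧ q.2.1 ∈ Icc (0 : ℝ) 1 ∧ q.2.2 ∈ Icc (0 : ℝ) 1 ∧
    q.2.1 * q.1 = h q.2.1 ∧ q.2.2 * (q.1 * (1 - q.1)) = 0}

theorem K_closed : IsClosed K := by
  unfold K
  apply IsClosed.inter (isClosed_Icc.preimage (by fun_prop))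
  apply IsClosed.inter (isClosed_Icc.preimage (by fun_prop))
  apply IsClosed.inter (isClosed_Icc.preimage (by fun_prop))
  apply IsClosed.inter
  · have h1 : Continuous fun q : ℝ × ℝ × ℝ => h q.2.1 := h_cont.comp (by fun_prop)
    exact isClosed_eq (by fun_prop) h1
  · exact isClosed_eq (by fun_prop) (by fun_prop)

theorem K_compact : IsCompact K := by
  have h1 : IsCompact (Icc (0 : ℝ) 1 ×ˢ (Icc (0 : ℝ) 1 ×ˢ Icc (0 : ℝ) 1)) :=
    isCompact_Icc.prod (isCompact_Icc.prod isCompact_Icc)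
  apply h1.of_isClosed_subset K_closed
  rintro ⟨u, w, z⟩ ⟨hu, hw, hz, _⟩
  exact ⟨hu, hw, hz⟩

/-- the cone map -/
def Phi (q : ℝ × ℝ × ℝ) : ℝ × ℝ × ℝ := ((1 - q.2.2) * q.1, (1 - q.2.2) * q.2.1, q.2.2)

theorem Phi_cont : Continuous Phi := by unfold Phi; fun_prop

/-- the continuum -/
def X : Set (ℝ × ℝ × ℝ) := Phi '' K

theorem X_compact : IsCompact X := K_compact.image Phi_cont

instance : CompactSpace X := isCompact_iff_compactSpace.1 X_compact

theorem mem_K_zig (s : ℝ) (hs : 0 ≤ s) (z : ℝ) (hz : z ∈ Icc (0 : ℝ) 1)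
    (h0 : z * (f s * (1 - f s)) = 0) : ((f s, 1 / (1 + s), z) : ℝ × ℝ × ℝ) ∈ K := by
  refine ⟨f_mem s, ⟨by positivity, ?_⟩, hz, ?_, h0⟩
  · change 1 / (1 + s) ≤ 1
    rw [div_le_one (by linarith)]; linarith
  · change 1 / (1 + s) * f s = h (1 / (1 + s))
    unfold h
    rw [one_div_one_div, add_sub_cancel_left]

/-- the apex -/
def a : X := ⟨(0, 0, 1), ⟨(f (0 : ℕ), 1 / (1 + ((0 : ℕ) : ℝ)), 1),
  mem_K_zig _ (by simp) 1 (by simp) (by rw [f_int]; simp), by simp [Phi]⟩⟩

/-- the first point of the zigzag -/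
def b : X := ⟨(0, 1, 0), ⟨(f (0 : ℕ), 1 / (1 + ((0 : ℕ) : ℝ)), 0),
  mem_K_zig _ (by simp) 0 (by simp) (by simp), by simp [Phi, f_zero]⟩⟩

/-! ### Lipschitz paths -/

/-- `c` and `d` are joined by a path with Lipschitz constant `L`. -/
def Reach (L : ℝ) (c d : X) : Prop :=
  ∃ γ : ℝ → X, γ 0 = c ∧ γ 1 = d ∧
    ∀ s ∈ Icc (0 : ℝ) 1, ∀ t ∈ Icc (0 : ℝ) 1, dist (γ s) (γ t) ≤ L * |s - t|

theorem Reach.symm {L : ℝ} {c d : X} (hr : Reach L c d) : Reach L d c := by
  obtain ⟨γ, h0, h1, hl⟩ := hr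
  refine ⟨fun t => γ (1 - t), by simpa using h1, by simpa using h0, ?_⟩
  intro s hs t ht
  have := hl (1 - s) ⟨by linarith [hs.2], by linarith [hs.1]⟩ (1 - t)
    ⟨by linarith [ht.2], by linarith [ht.1]⟩
  rwa [show 1 - s - (1 - t) = - (s - t) by ring, abs_neg] at this

/-- a path through `e` -/
theorem Reach.trans' {L : ℝ} (hL : 0 ≤ L) {c e d : X} (h1 : Reach L c e) (h2 : Reach L e d) :
    ∃ γ : ℝ → X, γ 0 = c ∧ γ 1 = d ∧ γ (1 / 2) = e ∧
      ∀ s ∈ Icc (0 : ℝ) 1, ∀ t ∈ Icc (0 : ℝ) 1, dist (γ s) (γ t) ≤ (2 * L) * |s - t| := by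
  obtain ⟨γ, hγ0, hγ1, hγ⟩ := h1
  obtain ⟨η, hη0, hη1, hη⟩ := h2
  have key : ∀ s ∈ Icc (0 : ℝ) 1, ∀ t ∈ Icc (0 : ℝ) 1, s ≤ t →
      dist (if s ≤ 1 / 2 then γ (2 * s) else η (2 * s - 1))
        (if t ≤ 1 / 2 then γ (2 * t) else η (2 * t - 1)) ≤ (2 * L) * |s - t| := by
    intro s hs t ht hst
    rw [abs_of_nonpos (by linarith)]
    by_cases ht2 : t ≤ 1 / 2
    · rw [if_pos (by linarith), if_pos ht2]
      have := hγ (2 * s) ⟨by linarith [hs.1], by linarith⟩ (2 * t)
        ⟨by linarith [ht.1], by linarith⟩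
      rw [abs_of_nonpos (by linarith)] at this
      linarith
    · rw [if_neg ht2]
      push Not at ht2
      by_cases hs2 : s ≤ 1 / 2
      · rw [if_pos hs2]
        have e1 := hγ (2 * s) ⟨by linarith [hs.1], by linarith⟩ 1 ⟨by norm_num, le_rfl⟩
        have e2 := hη 0 ⟨le_rfl, by norm_num⟩ (2 * t - 1) ⟨by linarith, by linarith [ht.2]⟩
        rw [hγ1, abs_of_nonpos (by linarith)] at e1
        rw [hη0, abs_of_nonpos (by linarith)] at e2
        have := dist_triangle (γ (2 * s)) e (η (2 * t - 1))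
        linarith
      · rw [if_neg hs2]
        push Not at hs2
        have := hη (2 * s - 1) ⟨by linarith, by linarith [hs.2]⟩ (2 * t - 1)
          ⟨by linarith, by linarith [ht.2]⟩
        rw [abs_of_nonpos (by linarith)] at this
        linarith
  refine ⟨fun t => if t ≤ 1 / 2 then γ (2 * t) else η (2 * t - 1), ?_, ?_, ?_, ?_⟩
  · simp [hγ0]
  · norm_num [hη1]
  · norm_num [hγ1]
  · intro s hs t ht
    rcases le_total s t with hst | hst
    · exact key s hs t ht hst
    · have := key t ht s hs hst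
      rwa [dist_comm, abs_sub_comm] at this

theorem Reach.trans {L : ℝ} (hL : 0 ≤ L) {c e d : X} (h1 : Reach L c e) (h2 : Reach L e d) :
    Reach (2 * L) c d := by
  obtain ⟨γ, h0, h1, _, h3⟩ := Reach.trans' hL h1 h2
  exact ⟨γ, h0, h1, h3⟩

theorem Reach.mono {L L' : ℝ} (hL : L ≤ L') {c d : X} (h1 : Reach L c d) : Reach L' c d := by
  obtain ⟨γ, h0, h1, h3⟩ := h1
  refine ⟨γ, h0, h1, fun s hs t ht => (h3 s hs t ht).trans ?_⟩
  exact mul_le_mul_of_nonneg_right hL (abs_nonneg _)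

/-- a point of `X` from a parameter -/
def mk (q : ℝ × ℝ × ℝ) (hq : q ∈ K) : X := ⟨Phi q, ⟨q, hq, rfl⟩⟩

theorem mk_dist (q q' : ℝ × ℝ × ℝ) (hq : q ∈ K) (hq' : q' ∈ K) :
    dist (mk q hq) (mk q' hq') = dist (Phi q) (Phi q') := rfl

theorem exists_proj (t : ℝ) : projIcc (0 : ℝ) 1 zero_le_one t ∈ Icc (0 : Icc (0 : ℝ) 1) 1 := by
  constructor
  · exact (projIcc (0 : ℝ) 1 zero_le_one t).2.1
  · exact (projIcc (0 : ℝ) 1 zero_le_one t).2.2

/-- construct `Reach` from a function on `[0,1]`. -/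
theorem reach_mk {L : ℝ} {c d : X} (γ : ℝ → ℝ × ℝ × ℝ) (hK : ∀ t ∈ Icc (0 : ℝ) 1, γ t ∈ K)
    (h0 : Phi (γ 0) = c) (h1 : Phi (γ 1) = d)
    (hL : ∀ s ∈ Icc (0 : ℝ) 1, ∀ t ∈ Icc (0 : ℝ) 1, dist (Phi (γ s)) (Phi (γ t)) ≤ L * |s - t|) :
    Reach L c d := by
  classical
  refine ⟨fun t => if ht : t ∈ Icc (0 : ℝ) 1 then mk (γ t) (hK t ht) else c, ?_, ?_, ?_⟩
  · have h : (0 : ℝ) ∈ Icc (0 : ℝ) 1 := ⟨le_rfl, zero_le_one⟩
    beta_reduce
    rw [dif_pos h]
    exact Subtype.ext h0
  · have h : (1 : ℝ) ∈ Icc (0 : ℝ) 1 := ⟨zero_le_one, le_rfl⟩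
    beta_reduce
    rw [dif_pos h]
    exact Subtype.ext h1
  · intro s hs t ht
    beta_reduce
    rw [dif_pos hs, dif_pos ht]
    exact hL s hs t ht

theorem dist3 (x y z x' y' z' r : ℝ) (h1 : |x - x'| ≤ r) (h2 : |y - y'| ≤ r)
    (h3 : |z - z'| ≤ r) : dist ((x, y, z) : ℝ × ℝ × ℝ) (x', y', z') ≤ r := by
  rw [Prod.dist_eq, Prod.dist_eq]
  simp only [Real.dist_eq]
  exact max_le h1 (max_le h2 h3)

/-- down a hair -/
theorem reach_hair (u w z : ℝ) (hq : ((u, w, z) : ℝ × ℝ × ℝ) ∈ K) (hu : u * (1 - u) = 0) :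
    Reach 2 a (mk (u, w, z) hq) := by
  obtain ⟨h1, h2, h3, h4, h5⟩ := hq
  simp only at h1 h2 h3 h4 h5
  apply reach_mk (fun t => (u, w, 1 - t * (1 - z)))
  · intro t ht
    refine ⟨h1, h2, ⟨?_, ?_⟩, h4, ?_⟩
    · change 0 ≤ 1 - t * (1 - z)
      nlinarith [ht.1, ht.2, h3.1, h3.2]
    · change 1 - t * (1 - z) ≤ 1
      nlinarith [ht.1, ht.2, h3.1, h3.2]
    · change (1 - t * (1 - z)) * (u * (1 - u)) = 0
      rw [hu, mul_zero]
  · simp [Phi, a]
  · simp [Phi, mk]
  · intro s _ t _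
    simp only [Phi]
    have e1 : |t - s| = |s - t| := abs_sub_comm _ _
    have hz1 : |1 - z| ≤ 1 := by rw [abs_le]; constructor <;> linarith [h3.1, h3.2]
    have hu1 : |u| ≤ 1 := by rw [abs_le]; constructor <;> linarith [h1.1, h1.2]
    have hw1 : |w| ≤ 1 := by rw [abs_le]; constructor <;> linarith [h2.1, h2.2]
    have hz0 := abs_nonneg (1 - z)
    have hst := abs_nonneg (s - t)
    apply dist3
    · rw [show (1 - (1 - s * (1 - z))) * u - (1 - (1 - t * (1 - z))) * u
        = (s - t) * ((1 - z) * u) by ring, abs_mul, abs_mul]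
      have : |1 - z| * |u| ≤ 1 := by nlinarith [abs_nonneg u]
      nlinarith
    · rw [show (1 - (1 - s * (1 - z))) * w - (1 - (1 - t * (1 - z))) * w
        = (s - t) * ((1 - z) * w) by ring, abs_mul, abs_mul]
      have : |1 - z| * |w| ≤ 1 := by nlinarith [abs_nonneg w]
      nlinarith
    · rw [show (1 - s * (1 - z)) - (1 - t * (1 - z))
        = (t - s) * (1 - z) by ring, abs_mul, e1]
      nlinarith

theorem inv_lip (s t : ℝ) (hs : 0 ≤ s) (ht : 0 ≤ t) : |1 / (1 + s) - 1 / (1 + t)| ≤ |s - t| := by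
  have h1 : (0 : ℝ) < 1 + s := by linarith
  have h2 : (0 : ℝ) < 1 + t := by linarith
  rw [div_sub_div _ _ h1.ne' h2.ne', abs_div, abs_of_pos (mul_pos h1 h2), div_le_iff₀ (mul_pos h1 h2)]
  rw [show 1 * (1 + t) - (1 + s) * 1 = - (s - t) by ring, abs_neg]
  have : 1 ≤ (1 + s) * (1 + t) := by nlinarith
  nlinarith [abs_nonneg (s - t)]

theorem reach_all (q : X) : Reach 4 a q := by
  obtain ⟨q, ⟨⟨u, w, z⟩, hK, rfl⟩⟩ := q
  change Reach 4 a (mk (u, w, z) hK)
  obtain ⟨h1, h2, h3, h4, h5⟩ := id hK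
  simp only at h1 h2 h3 h4 h5
  by_cases hu : u * (1 - u) = 0
  · exact (reach_hair u w z hK hu).mono (by norm_num)
  · have hz : z = 0 := by
      rcases mul_eq_zero.1 h5 with h | h
      · exact h
      · exact absurd h hu
    subst hz
    by_cases hw : w = 0
    · subst hw
      have hK0 : (((0 : ℝ), (0 : ℝ), (0 : ℝ)) : ℝ × ℝ × ℝ) ∈ K :=
        ⟨by simp, by simp, by simp, by simp [h], by simp⟩
      have r1 : Reach 2 a (mk _ hK0) := reach_hair 0 0 0 hK0 (by simp)
      have r2 : Reach 2 (mk _ hK0) (mk (u, 0, 0) hK) := by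
        apply reach_mk (fun t => (t * u, 0, 0))
        · intro t ht
          refine ⟨⟨?_, ?_⟩, by simp, by simp, by simp [h], by simp⟩
          · exact mul_nonneg ht.1 h1.1
          · change t * u ≤ 1
            nlinarith [ht.1, ht.2, h1.1, h1.2]
        · simp [Phi, mk]
        · simp [Phi, mk]
        · intro s _ t _
          simp only [Phi]
          apply dist3
          · rw [show (1 - 0) * (s * u) - (1 - 0) * (t * u) = (s - t) * u by ring, abs_mul]
            have hu1 : |u| ≤ 1 := by rw [abs_le]; constructor <;> linarith [h1.1, h1.2]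
            nlinarith [abs_nonneg (s - t), abs_nonneg u]
          · simp
          · simp
      exact (r1.trans (by norm_num) r2).mono (by norm_num)
    · have hw0 : 0 < w := lt_of_le_of_ne h2.1 (Ne.symm hw)
      obtain ⟨s, hs⟩ : ∃ s, s = 1 / w - 1 := ⟨_, rfl⟩
      have hs0 : 0 ≤ s := by
        rw [hs, sub_nonneg, le_div_iff₀ hw0]; linarith [h2.2]
      have hw' : w = 1 / (1 + s) := by rw [hs]; field_simp; ring
      have hu' : u = f s := by
        have : w * u = w * f s := by rw [h4, hs]; rfl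
        exact mul_left_cancel₀ hw this
      have hKj : ((f (⌊s⌋₊ : ℝ), 1 / (1 + (⌊s⌋₊ : ℝ)), 0) : ℝ × ℝ × ℝ) ∈ K :=
        mem_K_zig _ (by positivity) 0 (by simp) (by simp)
      have r1 : Reach 2 a (mk _ hKj) := reach_hair _ _ _ hKj (f_int _)
      have r2 : Reach 2 (mk _ hKj) (mk (u, w, 0) hK) := by
        have hfl := Nat.floor_le hs0
        have hfl2 := Nat.lt_floor_add_one s
        have hnn : (0 : ℝ) ≤ (⌊s⌋₊ : ℝ) := Nat.cast_nonneg _
        have hd : |s - (⌊s⌋₊ : ℝ)| ≤ 1 := by rw [abs_le]; constructor <;> linarith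
        apply reach_mk (fun t => (f ((⌊s⌋₊ : ℝ) + t * (s - ⌊s⌋₊)),
          1 / (1 + ((⌊s⌋₊ : ℝ) + t * (s - ⌊s⌋₊))), 0))
        · intro t ht
          apply mem_K_zig _ _ 0 (by simp) (by simp)
          have := mul_nonneg ht.1 (sub_nonneg.2 hfl)
          linarith
        · simp [Phi, mk]
        · simp only [Phi, mk]
          rw [hu', hw']
          simp
        · intro p hp t ht
          have a1 := mul_nonneg hp.1 (sub_nonneg.2 hfl)
          have a2 := mul_nonneg ht.1 (sub_nonneg.2 hfl)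
          have e : |((⌊s⌋₊ : ℝ) + p * (s - ⌊s⌋₊)) - ((⌊s⌋₊ : ℝ) + t * (s - ⌊s⌋₊))| ≤ |p - t| := by
            rw [show ((⌊s⌋₊ : ℝ) + p * (s - ⌊s⌋₊)) - ((⌊s⌋₊ : ℝ) + t * (s - ⌊s⌋₊))
              = (p - t) * (s - ⌊s⌋₊) by ring, abs_mul]
            nlinarith [abs_nonneg (p - t)]
          simp only [Phi]
          apply dist3
          · have := f_lip ((⌊s⌋₊ : ℝ) + p * (s - ⌊s⌋₊)) ((⌊s⌋₊ : ℝ) + t * (s - ⌊s⌋₊))
            simp only [sub_zero, one_mul]
            linarith
          · have := inv_lip ((⌊s⌋₊ : ℝ) + p * (s - ⌊s⌋₊)) ((⌊s⌋₊ : ℝ) + t * (s - ⌊s⌋₊))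
              (by linarith) (by linarith)
            simp only [sub_zero, one_mul]
            linarith [abs_nonneg (p - t)]
          · simp
      exact (r1.trans (by norm_num) r2).mono (by norm_num)

/-- a `Path` from a Lipschitz function -/
theorem exists_path {L : ℝ} {c d : X} (γ : ℝ → X) (h0 : γ 0 = c) (h1 : γ 1 = d)
    (hL : ∀ s ∈ Icc (0 : ℝ) 1, ∀ t ∈ Icc (0 : ℝ) 1, dist (γ s) (γ t) ≤ L * |s - t|) :
    ∃ p : Path c d, (∀ s t : unitInterval, dist (p s) (p t) ≤ L * |(s : ℝ) - t|) ∧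
      ∀ t : unitInterval, p t = γ t := by
  have hcont : Continuous fun t : unitInterval => γ t := by
    have : LipschitzWith (Real.toNNReal L) fun t : unitInterval => γ t := by
      apply LipschitzWith.of_dist_le_mul
      intro s t
      refine (hL s s.2 t t.2).trans ?_
      rw [Subtype.dist_eq, Real.dist_eq]
      exact mul_le_mul_of_nonneg_right (Real.le_coe_toNNReal L) (abs_nonneg _)
    exact this.continuous
  refine ⟨⟨⟨fun t : unitInterval => γ t, hcont⟩, by simpa using h0, by simpa using h1⟩, ?_, ?_⟩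
  · intro s t
    exact hL s s.2 t t.2
  · intro t; rfl

theorem reach_any (c d : X) : Reach 8 c d :=
  (Reach.trans (by norm_num) (reach_all c).symm (reach_all d)).mono (by norm_num)

instance : PathConnectedSpace X where
  nonempty := ⟨a⟩
  joined c d := by
    obtain ⟨γ, h0, h1, h2⟩ := reach_any c d
    obtain ⟨p, _⟩ := exists_path γ h0 h1 h2
    exact ⟨p⟩

/-- the uniformity condition -/
theorem uniform_of_lip (L : ℝ) (hL : 0 < L) (c d : X) (P : Set (Path c d))
    (hP : ∀ p ∈ P, ∀ s t : unitInterval, dist (p s) (p t) ≤ L * |(s : ℝ) - t|) (ε : ℝ)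
    (hε : ε > 0) : ∃ n : ℕ, ∀ p ∈ P, ∃ t : Fin (n + 1) → unitInterval,
      t 0 = 0 ∧ t (Fin.last n) = 1 ∧ StrictMono t ∧
        ∀ i : Fin n, Metric.diam (⇑p '' Set.Icc (t i.castSucc) (t i.succ)) ≤ ε := by
  obtain ⟨m, hm⟩ := exists_nat_ge (L / ε)
  refine ⟨m + 1, fun p hp => ?_⟩
  have hm1 : (0 : ℝ) < (m : ℝ) + 1 := by positivity
  refine ⟨fun i => ⟨(i : ℕ) / ((m : ℝ) + 1), by positivity, ?_⟩, ?_, ?_, ?_, ?_⟩
  · rw [div_le_one hm1]
    have := i.2
    have : ((i : ℕ) : ℝ) ≤ (m + 1 : ℕ) := by exact_mod_cast (by omega : (i : ℕ) ≤ m + 1)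
    push_cast at this
    exact this
  · apply Subtype.ext; simp
  · apply Subtype.ext
    simp only [Fin.val_last]
    push_cast
    rw [div_self hm1.ne']
  · intro i j hij
    apply Subtype.mk_lt_mk.2
    apply div_lt_div_of_pos_right _ hm1
    exact_mod_cast hij
  · intro i
    apply Metric.diam_le_of_forall_dist_le hε.le
    rintro _ ⟨s, hs, rfl⟩ _ ⟨t, ht, rfl⟩
    refine (hP p hp s t).trans ?_
    have a1 : ((i : ℕ) : ℝ) / ((m : ℝ) + 1) ≤ s := hs.1
    have a2 : (s : ℝ) ≤ (((i : ℕ) + 1 : ℕ) : ℝ) / ((m : ℝ) + 1) := hs.2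
    have b1 : ((i : ℕ) : ℝ) / ((m : ℝ) + 1) ≤ t := ht.1
    have b2 : (t : ℝ) ≤ (((i : ℕ) + 1 : ℕ) : ℝ) / ((m : ℝ) + 1) := ht.2
    push_cast at a2 b2
    rw [add_div] at a2 b2
    have hst : |(s : ℝ) - t| ≤ 1 / ((m : ℝ) + 1) := by
      rw [abs_le]; constructor <;> linarith
    calc L * |(s : ℝ) - t| ≤ L * (1 / ((m : ℝ) + 1)) := mul_le_mul_of_nonneg_left hst hL.le
      _ ≤ ε := by
        rw [mul_one_div, div_le_iff₀ hm1]
        rw [div_le_iff₀ hε] at hm
        nlinarith

theorem hyp (c d : X) : ∃ P : Set (Path c d),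
    (∀ ε : ℝ, ε > 0 → ∃ n : ℕ, ∀ p ∈ P, ∃ t : Fin (n + 1) → unitInterval,
      t 0 = 0 ∧ t (Fin.last n) = 1 ∧ StrictMono t ∧
        ∀ i : Fin n, Metric.diam (⇑p '' Set.Icc (t i.castSucc) (t i.succ)) ≤ ε) ∧
      (⋃ p ∈ P, Set.range ⇑p) = Set.univ := by
  refine ⟨{p | ∀ s t : unitInterval, dist (p s) (p t) ≤ 16 * |(s : ℝ) - t|},
    uniform_of_lip 16 (by norm_num) c d _ (fun p hp => hp), ?_⟩
  rw [eq_univ_iff_forall]
  intro e
  obtain ⟨γ, h0, h1, h2, h3⟩ := Reach.trans' (by norm_num) (reach_any c e) (reach_any e d)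
  obtain ⟨p, hp, hpγ⟩ := exists_path γ h0 h1 h3
  rw [mem_iUnion₂]
  refine ⟨p, ?_, ⟨⟨1 / 2, by norm_num, by norm_num⟩, ?_⟩⟩
  · intro s t
    have := hp s t
    norm_num at this ⊢
    exact this
  · rw [hpγ]; exact h2

/-! ### The long arcs -/

/-- the parameters of the arc through the `k`-th hair -/
noncomputable def arcS (k : ℕ) (T : ℝ) : ℝ := min (k : ℝ) (k + 1 - T)
noncomputable def arcZ (T : ℝ) : ℝ := max (1 - T) 0

theorem arc_mem (k : ℕ) (T : ℝ) (hT : T ∈ Icc (0 : ℝ) (k + 1)) :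
    ((f (arcS k T), 1 / (1 + arcS k T), arcZ T) : ℝ × ℝ × ℝ) ∈ K := by
  apply mem_K_zig
  · exact le_min (Nat.cast_nonneg _) (by linarith [hT.2])
  · exact ⟨le_max_right _ _, max_le (by linarith [hT.1]) (by norm_num)⟩
  · by_cases h1 : T ≤ 1
    · have : arcS k T = k := min_eq_left (by linarith)
      rw [this, f_int, mul_zero]
    · have : arcZ T = 0 := max_eq_right (by linarith)
      rw [this, zero_mul]

theorem mem_Icc_mul (k : ℕ) (t : unitInterval) : ((k : ℝ) + 1) * t ∈ Icc (0 : ℝ) (k + 1) := by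
  have h1 := t.2.1
  have h2 := t.2.2
  have h3 : (0 : ℝ) < (k : ℝ) + 1 := by positivity
  constructor
  · positivity
  · nlinarith

/-- the arc from `a` through the `k`-th hair to `b`. -/
noncomputable def arc (k : ℕ) : Path a b where
  toFun t := mk _ (arc_mem k (((k : ℝ) + 1) * t) (mem_Icc_mul k t))
  continuous_toFun := by
    apply Continuous.subtype_mk
    have h1 : Continuous fun t : unitInterval => arcS k (((k : ℝ) + 1) * t) := by
      unfold arcS; fun_prop
    have h2 : Continuous fun t : unitInterval => arcZ (((k : ℝ) + 1) * t) := by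
      unfold arcZ; fun_prop
    have h3 : Continuous fun t : unitInterval => 1 / (1 + arcS k (((k : ℝ) + 1) * t)) := by
      apply continuous_const.div (continuous_const.add h1)
      intro t
      have : 0 ≤ arcS k (((k : ℝ) + 1) * t) :=
        le_min (Nat.cast_nonneg _) (by linarith [(mem_Icc_mul k t).2])
      have h0 : 0 < 1 + arcS k (((k : ℝ) + 1) * t) := by linarith
      exact h0.ne'
    have h4 : Continuous fun t : unitInterval => f (arcS k (((k : ℝ) + 1) * t)) :=
      f_cont.comp h1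
    exact Phi_cont.comp (h4.prodMk (h3.prodMk h2))
  source' := by
    apply Subtype.ext
    simp [mk, Phi, a, arcZ]
  target' := by
    apply Subtype.ext
    simp [mk, Phi, b, arcZ, arcS, f_zero]

theorem arc_inj (k : ℕ) : Function.Injective ⇑(arc k) := by
  intro s t hst
  have hst := congrArg Subtype.val hst
  have h1 : ((1 - arcZ (((k : ℝ) + 1) * s)) * f (arcS k (((k : ℝ) + 1) * s)),
      (1 - arcZ (((k : ℝ) + 1) * s)) * (1 / (1 + arcS k (((k : ℝ) + 1) * s))),
      arcZ (((k : ℝ) + 1) * s)) = ((1 - arcZ (((k : ℝ) + 1) * t)) * f (arcS k (((k : ℝ) + 1) * t)),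
      (1 - arcZ (((k : ℝ) + 1) * t)) * (1 / (1 + arcS k (((k : ℝ) + 1) * t))),
      arcZ (((k : ℝ) + 1) * t)) := hst
  rw [Prod.mk.injEq, Prod.mk.injEq] at h1
  obtain ⟨_, h2, h3⟩ := h1
  have hk : (0 : ℝ) < (k : ℝ) + 1 := by positivity
  suffices h : ((k : ℝ) + 1) * s = ((k : ℝ) + 1) * t by
    exact Subtype.ext (mul_left_cancel₀ hk.ne' h)
  generalize hS : ((k : ℝ) + 1) * s = S at *
  generalize hT : ((k : ℝ) + 1) * t = T at *
  unfold arcZ at h3
  by_cases hS1 : S < 1
  · rw [max_eq_left (by linarith)] at h3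
    by_cases hT1 : T < 1
    · rw [max_eq_left (by linarith)] at h3
      linarith
    · push Not at hT1
      rw [max_eq_right (by linarith)] at h3
      linarith
  · push Not at hS1
    rw [max_eq_right (by linarith)] at h3
    have hT1 : 1 ≤ T := by
      by_contra hcon
      push Not at hcon
      rw [max_eq_left (by linarith)] at h3
      linarith
    have z1 : arcZ S = 0 := max_eq_right (by linarith)
    have z2 : arcZ T = 0 := max_eq_right (by linarith)
    have s1 : arcS k S = k + 1 - S := min_eq_right (by linarith)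
    have s2 : arcS k T = k + 1 - T := min_eq_right (by linarith)
    rw [z1, z2, s1, s2, sub_zero, one_mul, one_mul] at h2
    have hSm := (mem_Icc_mul k s).2
    have hTm := (mem_Icc_mul k t).2
    rw [hS] at hSm
    rw [hT] at hTm
    have e1 : (1 + (k + 1 - S) : ℝ) ≠ 0 := by linarith
    have e2 : (1 + (k + 1 - T) : ℝ) ≠ 0 := by linarith
    rw [div_eq_div_iff e1 e2] at h2
    linarith

/-! ### Arcs through the `k`-th hair are long -/

/-- the height of the projection from the apex -/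
noncomputable def ww (q : X) : ℝ := q.1.2.1 / (1 - q.1.2.2)
/-- the abscissa of the projection from the apex -/
noncomputable def uu (q : X) : ℝ := q.1.1 / (1 - q.1.2.2)

theorem param (q : X) (hq : q ≠ a) : q.1.2.2 < 1 ∧
    ((uu q, ww q, q.1.2.2) : ℝ × ℝ × ℝ) ∈ K := by
  obtain ⟨q, ⟨⟨u, w, z⟩, hK, rfl⟩⟩ := q
  have hz : z ≠ 1 := by
    rintro rfl
    apply hq
    apply Subtype.ext
    simp [Phi, a]
  have hz1 : z < 1 := lt_of_le_of_ne hK.2.2.1.2 hz
  refine ⟨hz1, ?_⟩
  have h1 : (1 - z) ≠ 0 := by linarith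
  have e1 : (1 - z) * u / (1 - z) = u := by field_simp
  have e2 : (1 - z) * w / (1 - z) = w := by field_simp
  simp only [uu, ww, Phi]
  rw [e1, e2]
  exact hK

theorem K_w (u w z : ℝ) (hK : ((u, w, z) : ℝ × ℝ × ℝ) ∈ K) (s : ℝ) (hs : 0 ≤ s)
    (hw : w = 1 / (1 + s)) : u = f s := by
  obtain ⟨_, _, _, h4, _⟩ := hK
  simp only at h4
  have hw0 : w ≠ 0 := by rw [hw]; positivity
  have e : 1 / w - 1 = s := by rw [hw]; field_simp; ring
  unfold h at h4
  rw [e] at h4
  exact mul_left_cancel₀ hw0 h4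

section long

variable (p : Path a b) (hp : Function.Injective ⇑p)

include hp in
theorem ne_a (t : unitInterval) (ht : 0 < t) : p t ≠ a := by
  intro h
  have : p t = p 0 := by rw [h, p.source]
  exact ht.ne' (hp this)

include hp in
theorem ww_cont (t : unitInterval) (ht : 0 < t) : ContinuousAt (fun t => ww (p t)) t := by
  have h1 := (param (p t) (ne_a p hp t ht)).1
  unfold ww
  apply ContinuousAt.div _ _ (by linarith)
  · exact (continuous_subtype_val.comp p.continuous).snd.fst.continuousAt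
  · exact continuousAt_const.sub (continuous_subtype_val.comp p.continuous).snd.snd.continuousAt

include hp in
theorem uu_cont (t : unitInterval) (ht : 0 < t) : ContinuousAt (fun t => uu (p t)) t := by
  have h1 := (param (p t) (ne_a p hp t ht)).1
  unfold uu
  apply ContinuousAt.div _ _ (by linarith)
  · exact (continuous_subtype_val.comp p.continuous).fst.continuousAt
  · exact continuousAt_const.sub (continuous_subtype_val.comp p.continuous).snd.snd.continuousAt

/-- intermediate values of `ww` along the path -/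
theorem ivt (s t : unitInterval) (hs : 0 < s) (hst : s ≤ t) (c : ℝ) (h1 : ww (p s) ≤ c)
    (h2 : c ≤ ww (p t)) (hp : Function.Injective ⇑p) : ∃ r ∈ Icc s t, ww (p r) = c := by
  have hc : ContinuousOn (fun t => ww (p t)) (Icc s t) := fun r hr =>
    (ww_cont p hp r (lt_of_lt_of_le hs hr.1)).continuousWithinAt
  have := intermediate_value_Icc hst hc
  obtain ⟨r, hr, hr2⟩ := this ⟨h1, h2⟩
  exact ⟨r, hr, hr2⟩

theorem ww_b : ww b = 1 := by simp [ww, b]

include hp in
theorem ww_pos (t : unitInterval) (ht : 0 < t) : 0 < ww (p t) := by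
  by_contra hcon
  push Not at hcon
  have hnn : ∀ t : unitInterval, 0 < t → 0 ≤ ww (p t) := fun t ht =>
    (param (p t) (ne_a p hp t ht)).2.2.1.1
  -- the last zero
  let Z : Set unitInterval := {s | t ≤ s ∧ ww (p s) = 0}
  have hZc : IsClosed Z := by
    have hc : ContinuousOn (fun t => ww (p t)) (Ici t) := fun r hr =>
      (ww_cont p hp r (lt_of_lt_of_le ht hr)).continuousWithinAt
    have := hc.preimage_isClosed_of_isClosed isClosed_Ici (isClosed_singleton (x := (0 : ℝ)))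
    exact this
  have hZne : Z.Nonempty := ⟨t, le_rfl, le_antisymm hcon (hnn t ht)⟩
  obtain ⟨t0, ht0, hmax⟩ := hZc.isCompact.exists_isGreatest hZne
  have ht0p : 0 < t0 := lt_of_lt_of_le ht ht0.1
  have h1 : ww (p 1) = 1 := by rw [p.target]; exact ww_b
  have ht01 : t0 < 1 := by
    rcases lt_or_eq_of_le (unitInterval.le_one' : t0 ≤ 1) with h | h
    · exact h
    · exfalso
      have := ht0.2
      rw [h, h1] at this
      norm_num at this
  -- continuity of uu at t0
  have hu := uu_cont p hp t0 ht0p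
  rw [Metric.continuousAt_iff] at hu
  obtain ⟨δ, hδ, hd⟩ := hu (1 / 2) (by norm_num)
  -- a point after t0 within δ
  obtain ⟨t1, ht1a, ht1b⟩ : ∃ t1 : unitInterval, t0 < t1 ∧ dist t1 t0 < δ := by
    have h01 : (t0 : ℝ) < 1 := ht01
    have h00 : (0 : ℝ) ≤ t0 := t0.2.1
    refine ⟨⟨min 1 (t0 + δ / 2), ⟨le_min (by norm_num) (by linarith), min_le_left _ _⟩⟩, ?_, ?_⟩
    · apply Subtype.mk_lt_mk.2
      exact lt_min h01 (by linarith)
    · rw [Subtype.dist_eq, Real.dist_eq]
      simp only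
      rw [abs_of_nonneg]
      · have := min_le_right (1 : ℝ) ((t0 : ℝ) + δ / 2)
        linarith
      · have : (t0 : ℝ) ≤ min 1 ((t0 : ℝ) + δ / 2) := le_min h01.le (by linarith)
        linarith
  have hw1 : 0 < ww (p t1) := by
    rcases lt_or_eq_of_le (hnn t1 (ht0p.trans ht1a)) with h | h
    · exact h
    · exfalso
      have := hmax (show t1 ∈ Z from ⟨ht0.1.trans ht1a.le, h.symm⟩)
      exact absurd ht1a (not_lt.2 this)
  obtain ⟨j, hj⟩ := exists_nat_gt (1 / ww (p t1))
  have key : ∀ s : ℕ, j ≤ s → ∃ r : unitInterval, dist r t0 < δ ∧ uu (p r) = f s := by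
    intro s hs
    have hs' : (j : ℝ) ≤ s := by exact_mod_cast hs
    have hle : 1 / (1 + (s : ℝ)) ≤ ww (p t1) := by
      rw [div_le_iff₀ (by positivity)]
      rw [div_lt_iff₀ hw1] at hj
      nlinarith
    obtain ⟨r, hr, hr2⟩ := ivt p t0 t1 ht0p ht1a.le (1 / (1 + (s : ℝ)))
      (by rw [ht0.2]; positivity) hle hp
    refine ⟨r, ?_, ?_⟩
    · rw [Subtype.dist_eq, Real.dist_eq] at ht1b ⊢
      have e1 : (t0 : ℝ) ≤ r := hr.1
      have e2 : (r : ℝ) ≤ t1 := hr.2
      rw [abs_of_nonneg (by linarith)] at ht1b ⊢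
      linarith
    · exact K_w _ _ _ (param (p r) (ne_a p hp r (lt_of_lt_of_le ht0p hr.1))).2 s
        (Nat.cast_nonneg _) hr2
  obtain ⟨r1, hr1, hr1'⟩ := key (2 * j) (by omega)
  obtain ⟨r2, hr2, hr2'⟩ := key (2 * j + 1) (by omega)
  have d1 := hd hr1
  have d2 := hd hr2
  rw [hr1', f_even, Real.dist_eq] at d1
  rw [hr2', f_odd, Real.dist_eq] at d2
  rw [abs_lt] at d1 d2
  linarith [d1.1, d1.2, d2.1, d2.2]

/-- the times at which the arc passes the parameters `i + 1/3`. -/
theorem times (hp : Function.Injective ⇑p) (k : ℕ) (t : unitInterval)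
    (ht : 0 < t) (hw : ww (p t) ≤ 1 / (1 + (k : ℝ))) :
    ∃ q : ℕ → unitInterval, (∀ i < k, t ≤ q i ∧ ww (p (q i)) = 1 / (1 + ((i : ℝ) + 1 / 3))) ∧
      ∀ i j, i ≤ j → j < k → q j ≤ q i := by
  induction k generalizing t with
  | zero => exact ⟨fun _ => t, by simp, by simp⟩
  | succ k ih =>
    have h1 : ww (p 1) = 1 := by rw [p.target]; exact ww_b
    obtain ⟨r, hr, hr2⟩ := ivt p t 1 ht unitInterval.le_one' (1 / (1 + ((k : ℝ) + 1 / 3)))
      (hw.trans (by
        apply one_div_le_one_div_of_le (by positivity)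
        push_cast; linarith))
      (by
        rw [h1, div_le_one (by positivity)]
        have : (0 : ℝ) ≤ k := Nat.cast_nonneg _
        linarith) hp
    obtain ⟨q, hq1, hq2⟩ := ih r (lt_of_lt_of_le ht hr.1) (by
      rw [hr2]
      apply one_div_le_one_div_of_le (by positivity)
      linarith)
    refine ⟨fun i => if i = k then r else q i, ?_, ?_⟩
    · intro i hi
      by_cases hik : i = k
      · subst hik
        simp only [if_true]
        exact ⟨hr.1, hr2⟩
      · simp only [hik, if_false]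
        have := hq1 i (by omega)
        exact ⟨hr.1.trans this.1, this.2⟩
    · intro i j hij hj
      by_cases hjk : j = k
      · subst hjk
        by_cases hik : i = j
        · simp [hik]
        · simp only [hik, if_true, if_false]
          exact (hq1 i (by omega)).1
      · have hik : i ≠ k := by omega
        simp only [hjk, hik, if_false]
        exact hq2 i j hij (by omega)

theorem third_pt (q : X) (hq : q ≠ a) (i : ℕ) (hw : ww q = 1 / (1 + ((i : ℝ) + 1 / 3))) :
    q.1.1 = (1 - (-1) ^ i / 2) / 2 := by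
  obtain ⟨h1, hK⟩ := param q hq
  have hu := K_w _ _ _ hK _ (by positivity) hw
  rw [f_third] at hu
  have h5 : q.1.2.2 * (uu q * (1 - uu q)) = 0 := hK.2.2.2.2
  have hne : uu q * (1 - uu q) ≠ 0 := by
    rw [hu]
    rcases neg_one_pow_eq_or ℝ i with h | h <;> rw [h] <;> norm_num
  have hz : q.1.2.2 = 0 := by
    rcases mul_eq_zero.1 h5 with h | h
    · exact h
    · exact absurd h hne
  rw [← hu]
  unfold uu
  rw [hz]; simp

include hp in
theorem long (k n : ℕ) (hk : n + 2 < k) (t : unitInterval) (ht : 0 < t)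
    (hw : ww (p t) ≤ 1 / (1 + (k : ℝ))) (τ : Fin (n + 1) → unitInterval) (h0 : τ 0 = 0)
    (h1 : τ (Fin.last n) = 1) (hm : StrictMono τ)
    (hd : ∀ i : Fin n, Metric.diam (⇑p '' Set.Icc (τ i.castSucc) (τ i.succ)) ≤ 1 / 4) :
    False := by
  obtain ⟨q, hq1, hq2⟩ := times p hp k t ht hw
  -- consecutive points are far apart
  have hfar : ∀ i, i + 1 < k → 1 / 2 ≤ dist (p (q i)) (p (q (i + 1))) := by
    intro i hi
    have a1 := third_pt (p (q i)) (ne_a p hp _ (lt_of_lt_of_le ht (hq1 i (by omega)).1)) i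
      (hq1 i (by omega)).2
    have a2 := third_pt (p (q (i + 1))) (ne_a p hp _ (lt_of_lt_of_le ht (hq1 (i + 1) hi).1)) (i + 1)
      (hq1 (i + 1) hi).2
    have : |(p (q i)).1.1 - (p (q (i + 1))).1.1| = 1 / 2 := by
      rw [a1, a2, pow_succ]
      rcases neg_one_pow_eq_or ℝ i with h | h <;> rw [h] <;> norm_num [abs_of_pos, abs_of_neg]
    rw [← this, ← Real.dist_eq, Subtype.dist_eq, Prod.dist_eq]
    exact le_max_left _ _
  -- counting
  let c : unitInterval → ℕ := fun r => (Finset.univ.filter fun l : Fin (n + 1) => τ l < r).card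
  have hc : ∀ i, i + 1 < k → c (q (i + 1)) < c (q i) := by
    intro i hi
    have hle : q (i + 1) ≤ q i := hq2 i (i + 1) (by omega) hi
    -- there is a partition point in [q (i+1), q i)
    obtain ⟨l, hl1, hl2⟩ : ∃ l : Fin (n + 1), q (i + 1) ≤ τ l ∧ τ l < q i := by
      by_contra hcon
      push Not at hcon
      -- the least l with q (i+1) ≤ τ l
      have hne : (Finset.univ.filter fun l : Fin (n + 1) => q (i + 1) ≤ τ l).Nonempty :=
        ⟨Fin.last n, by
          rw [Finset.mem_filter, h1]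
          exact ⟨Finset.mem_univ _, unitInterval.le_one'⟩⟩
      obtain ⟨l, hl, hlmin⟩ := Finset.exists_min_image _ id hne
      simp only [Finset.mem_filter, Finset.mem_univ, true_and, id] at hl hlmin
      have hl0 : l ≠ 0 := by
        rintro rfl
        rw [h0] at hl
        have : 0 < q (i + 1) := lt_of_lt_of_le ht (hq1 (i + 1) hi).1
        exact absurd this (not_lt.2 hl)
      obtain ⟨l', rfl⟩ := Fin.exists_succ_eq.2 hl0
      have hl' : τ l'.castSucc ≤ q (i + 1) := by
        by_contra hcon2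
        push Not at hcon2
        have := hlmin _ hcon2.le
        exact absurd this (not_le.2 (Fin.castSucc_lt_succ))
      have hu := hcon _ hl
      have hb : Bornology.IsBounded (⇑p '' Set.Icc (τ l'.castSucc) (τ l'.succ)) :=
        (isCompact_Icc.image p.continuous).isBounded
      have := Metric.dist_le_diam_of_mem hb
        (mem_image_of_mem p (show q i ∈ Set.Icc (τ l'.castSucc) (τ l'.succ) from
          ⟨hl'.trans hle, hu⟩))
        (mem_image_of_mem p (show q (i + 1) ∈ Set.Icc (τ l'.castSucc) (τ l'.succ) from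
          ⟨hl', hl⟩))
      have h3 := hfar i hi
      have h4 := hd l'
      linarith
    apply Finset.card_lt_card
    rw [Finset.ssubset_iff_of_subset]
    · exact ⟨l, by simpa using hl2, by simpa using hl1⟩
    · intro l hl
      simp only [Finset.mem_filter, Finset.mem_univ, true_and] at hl ⊢
      exact lt_of_lt_of_le hl hle
  have hc2 : ∀ i, i < k → c (q i) + i ≤ c (q 0) := by
    intro i hi
    induction i with
    | zero => simp
    | succ i ih =>
      have := hc i hi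
      have := ih (by omega)
      omega
  have h3 := hc2 (k - 1) (by omega)
  have h4 : c (q 0) ≤ n + 1 := by
    have := Finset.card_filter_le (Finset.univ : Finset (Fin (n + 1))) fun l => τ l < q 0
    simpa using this
  omega

end long

theorem main : ¬ (∀ (X : Type) [MetricSpace X] [CompactSpace X] [ConnectedSpace X],
      (∀ a b : X, ∃ P : Set (Path a b),
          (∀ ε : ℝ, ε > 0 → ∃ n : ℕ, ∀ p ∈ P, ∃ t : Fin (n + 1) → unitInterval,
              t 0 = 0 ∧ t (Fin.last n) = 1 ∧ StrictMono t ∧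
              ∀ i : Fin n, Metric.diam (⇑p '' Set.Icc (t i.castSucc) (t i.succ)) ≤ ε) ∧
          (⋃ p ∈ P, Set.range ⇑p) = Set.univ) →
      (∀ a b : X, ∃ P : Set (Path a b),
          (∀ p ∈ P, Function.Injective ⇑p) ∧
          (∀ ε : ℝ, ε > 0 → ∃ n : ℕ, ∀ p ∈ P, ∃ t : Fin (n + 1) → unitInterval,
              t 0 = 0 ∧ t (Fin.last n) = 1 ∧ StrictMono t ∧
              ∀ i : Fin n, Metric.diam (⇑p '' Set.Icc (t i.castSucc) (t i.succ)) ≤ ε) ∧
          (⋃ p ∈ P, Set.range ⇑p) =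
            ⋃ (q : Path a b) (_ : Function.Injective ⇑q), Set.range ⇑q)) := by
  intro H
  obtain ⟨P, hinj, hunif, hun⟩ := H X hyp a b
  obtain ⟨n, hn⟩ := hunif (1 / 4) (by norm_num)
  let k := n + 3
  have hk : ((k : ℝ) + 1) ≠ 0 := by positivity
  let t0 : unitInterval := ⟨1 / (2 * ((k : ℝ) + 1)), by positivity, by
    rw [div_le_one (by positivity)]
    have : (0 : ℝ) ≤ k := Nat.cast_nonneg _
    linarith⟩
  have hmem : arc k t0 ∈ ⋃ (q : Path a b) (_ : Function.Injective ⇑q), Set.range ⇑q := by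
    rw [mem_iUnion₂]
    exact ⟨arc k, arc_inj k, t0, rfl⟩
  rw [← hun, mem_iUnion₂] at hmem
  obtain ⟨p, hpP, ⟨t, ht⟩⟩ := hmem
  obtain ⟨τ, h0, h1, h2, h3⟩ := hn p hpP
  have hT : ((k : ℝ) + 1) * (t0 : ℝ) = 1 / 2 := by
    change ((k : ℝ) + 1) * (1 / (2 * ((k : ℝ) + 1))) = 1 / 2
    field_simp
  have hval : (arc k t0 : X).1 = Phi (f (arcS k (1 / 2)), 1 / (1 + arcS k (1 / 2)), arcZ (1 / 2)) := by
    rw [← hT]; rfl
  have hS : arcS k (1 / 2) = k := min_eq_left (by linarith)
  have hZ : arcZ (1 / 2) = 1 / 2 := by unfold arcZ; norm_num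
  rw [hS, hZ] at hval
  have htpos : 0 < t := by
    rcases lt_or_eq_of_le (unitInterval.nonneg' : 0 ≤ t) with h | h
    · exact h
    · exfalso
      rw [← h, p.source] at ht
      have h5 : a.1.2.2 = (arc k t0).1.2.2 := congrArg (fun q : X => q.1.2.2) ht
      rw [hval] at h5
      simp only [Phi, a] at h5
      norm_num at h5
  refine long p (hinj p hpP) k n (by omega) t htpos ?_ τ h0 h1 h2 h3
  rw [ht]
  unfold ww
  rw [hval]
  simp only [Phi]
  apply le_of_eq
  field_simp

end Run7.h958.Zig
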